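import Mathlib

namespace Pool.Agent.Helper6.KE

open CategoryTheory CategoryTheory.Limits CategoryTheory.Pretriangulated

universe v u

variable {C : Type u} [Category.{v} C] [Preadditive C] [HasZeroObject C] [HasShift C ℤ]
  [∀ n : ℤ, (shiftFunctor C n).Additive] [Pretriangulated C]

/-- All morphisms from `X` to the `n`-th shift of `Y` vanish. -/
def HV (X Y : C) (n : ℤ) : Prop := ∀ f : X ⟶ Y⟦n⟧, f = 0

lemma HV.of_iso_left {X X' Y : C} {n : ℤ} (h : HV X Y n) (e : X' ≅ X) : HV X' Y n := by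
  intro f
  have := h (e.inv ≫ f)
  rw [← cancel_epi e.inv, this, comp_zero]

lemma HV.of_iso_right {X Y Y' : C} {n : ℤ} (h : HV X Y n) (e : Y' ≅ Y) : HV X Y' n := by
  intro f
  have := h (f ≫ (e.hom)⟦n⟧')
  rw [← cancel_mono ((e.hom)⟦n⟧'), this, zero_comp]

lemma HV.shift_left {X Y : C} {b : ℤ} (a n : ℤ) (h : HV (X⟦a⟧) Y b) (hab : n + a = b) :
    HV X Y n := by
  intro f
  have := h (f⟦a⟧' ≫ (shiftFunctorAdd' C n a b hab).inv.app Y)
  apply (shiftFunctor C a).map_injective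
  rw [Functor.map_zero, ← cancel_mono ((shiftFunctorAdd' C n a b hab).inv.app Y), this, zero_comp]

lemma HV.shift_shift {X Y : C} {n : ℤ} (h : HV X Y n) (a b : ℤ) (hab : n + a = b)
    (f : X⟦a⟧ ⟶ Y⟦b⟧) : f = 0 := by
  obtain ⟨g, hg⟩ := (shiftFunctor C a).map_surjective
    (f ≫ (shiftFunctorAdd' C n a b hab).hom.app Y)
  rw [h g, Functor.map_zero] at hg
  rw [← cancel_mono ((shiftFunctorAdd' C n a b hab).hom.app Y), ← hg, zero_comp]

lemma HV.to_shift {X Y : C} {n : ℤ} (h : HV X Y n) (a b : ℤ) (hab : n + a = b) :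
    HV (X⟦a⟧) Y b := fun f => h.shift_shift a b hab f

lemma HV.shift_right {X Y : C} {n : ℤ} (h : HV X Y n) (a b : ℤ) (hab : a + b = n) :
    HV X (Y⟦a⟧) b := by
  intro f
  have := h (f ≫ (shiftFunctorAdd' C a b n hab).inv.app Y)
  rw [← cancel_mono ((shiftFunctorAdd' C a b n hab).inv.app Y), this, zero_comp]

lemma HV.of_shift_right {X Y : C} {b : ℤ} (a n : ℤ) (h : HV X (Y⟦a⟧) b) (hab : a + b = n) :
    HV X Y n := by
  intro f
  have := h (f ≫ (shiftFunctorAdd' C a b n hab).hom.app Y)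
  rw [← cancel_mono ((shiftFunctorAdd' C a b n hab).hom.app Y), this, zero_comp]

lemma HV.hom_shift {X Y : C} {n : ℤ} (h : HV X Y n) (f : X ⟶ Y⟦n⟧) : f = 0 := h f

/-- exactness in the middle, in degree `n`, covariant. -/
lemma coyo₂ (T : Triangle C) (hT : T ∈ distTriang C) {X : C} (n : ℤ) (f : X ⟶ T.obj₂⟦n⟧)
    (hf : f ≫ T.mor₂⟦n⟧' = 0) : ∃ g : X ⟶ T.obj₁⟦n⟧, f = g ≫ T.mor₁⟦n⟧' := by
  have key : ∃ g : X ⟶ T.obj₁⟦n⟧, f = g ≫ (n.negOnePow • T.mor₁⟦n⟧') :=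
    Triangle.coyoneda_exact₂ _ (Triangle.shift_distinguished T hT n) f (by
      change f ≫ (n.negOnePow • T.mor₂⟦n⟧') = 0
      rw [Linear.comp_units_smul, hf, smul_zero])
  obtain ⟨g, hg⟩ := key
  refine ⟨n.negOnePow • g, ?_⟩
  rw [hg, Linear.comp_units_smul, Linear.units_smul_comp]

/-- injectivity on the first object, in degree `n`, covariant. -/
lemma coyo₁ (T : Triangle C) (hT : T ∈ distTriang C) {X : C} (n m : ℤ) (hm : m + 1 = n)
    (hB : HV X T.obj₃ m) (f : X ⟶ T.obj₁⟦n⟧)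
    (hf : f ≫ T.mor₁⟦n⟧' = 0) : f = 0 := by
  have key : ∃ (g : X ⟶ T.obj₃⟦n⟧⟦(-1 : ℤ)⟧) (k : T.obj₃⟦n⟧⟦(-1 : ℤ)⟧ ⟶ T.obj₁⟦n⟧),
      f = g ≫ k := by
    obtain ⟨g, hg⟩ := Triangle.coyoneda_exact₂ _
      (inv_rot_of_distTriang _ (Triangle.shift_distinguished T hT n)) f (by
      change f ≫ (n.negOnePow • T.mor₁⟦n⟧') = 0
      rw [Linear.comp_units_smul, hf, smul_zero])
    exact ⟨g, _, hg⟩
  obtain ⟨g, k, hg⟩ := key
  have h0 : g = 0 := by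
    have h1 := hB (g ≫ (shiftFunctorAdd' C n (-1) m (by omega)).inv.app T.obj₃)
    exact (cancel_mono ((shiftFunctorAdd' C n (-1) m (by omega)).inv.app T.obj₃)).1
      (h1.trans zero_comp.symm)
  rw [hg, h0, zero_comp]

/-- surjectivity onto the first object, contravariant. -/
lemma yo₁ (T : Triangle C) (hT : T ∈ distTriang C) {Y : C}
    (h : ∀ g : T.obj₃⟦(-1 : ℤ)⟧ ⟶ Y, g = 0) (f : T.obj₁ ⟶ Y) :
    ∃ g : T.obj₂ ⟶ Y, f = T.mor₁ ≫ g := by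
  obtain ⟨g, hg⟩ := Triangle.yoneda_exact₂ _ (inv_rot_of_distTriang _ hT) f (h _)
  exact ⟨g, hg⟩

lemma yo₁' (T : Triangle C) (hT : T ∈ distTriang C) {Y : C} (n m : ℤ) (hm : m = n + 1)
    (h : HV T.obj₃ Y m) (f : T.obj₁ ⟶ Y⟦n⟧) :
    ∃ g : T.obj₂ ⟶ Y⟦n⟧, f = T.mor₁ ≫ g :=
  yo₁ T hT (fun g => h.shift_shift (-1) n (by omega) g) f

end Pool.Agent.Helper6.KE
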