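import Pool.Agent.Helper6.KE.Parallel

namespace Pool.Agent.Helper6.KE

open CategoryTheory CategoryTheory.Limits CategoryTheory.Pretriangulated Module
open CategoryTheory.Triangulated
open scoped ZeroObject

universe v u w

section

variable (form : LinearMap.BilinForm ℝ (Fin 12 → ℝ)) (symm : ∀ x y, form x y = form y x)
  (plane : ∃ P : Submodule ℝ (Fin 12 → ℝ), finrank ℝ P = 2 ∧ ∀ x ∈ P, x ≠ 0 → form x x < 0)
  (l : Fin 10 → (Fin 12 → ℝ)) (hl : ∀ i j, form (l i) (l j) = if i = j then 1 else 0)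

include symm plane hl in
lemma la_window (Z : (Fin 12 → ℝ) →ₗ[ℝ] ℂ) (v₁ v₂ n : Fin 12 → ℝ)
    (hv₂ : ∀ i, form (l i) v₂ = 0) (hln : ∀ i, form (l i) n = 0)
    (h22 : form v₂ v₂ < 0) (hnn : form n n < 0) (h2n : form v₂ n = 0) (h1n : form v₁ n < 0)
    (e₂ m₂ θ η r : ℝ) (hm₂ : 0 < m₂) (hZ₂ : Z v₂ = m₂ * ray e₂) (hr : 0 < r)
    (hZn : Z n = r * ray η) (hη : η = θ ∨ η = θ + 1) (he1 : θ < e₂) (he2 : e₂ < θ + 1)
    (x : Fin 12 → ℝ) (hx : ∀ i, form (l i) x = 0) (φ m : ℝ) (hm : 0 < m)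
    (hφ : (θ < φ ∧ φ < θ + 1) ∨ φ = η) (hZx : Z x = m * ray φ) :
    form v₂ x < 0 ∨ (form v₂ x = 0 ∧ form v₁ x < 0) := by
  obtain ⟨a, b, hab⟩ := span_H form symm plane l hl v₂ n hv₂ hln h22 hnn h2n x hx
  have hZx' : Z x = a • Z v₂ + b • Z n := by rw [hab, map_add, map_smul, map_smul]
  have him : m * Real.sin (Real.pi * (φ - θ)) = a * (m₂ * Real.sin (Real.pi * (e₂ - θ))) := by
    rw [← rotIm_ray, ← hZx, hZx', rotIm_add, rotIm_smul, rotIm_smul, hZ₂, hZn, rotIm_ray,
      rotIm_ray]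
    have : Real.sin (Real.pi * (η - θ)) = 0 := by
      rcases hη with rfl | rfl
      · rw [sub_self, mul_zero, Real.sin_zero]
      · have : Real.pi * (θ + 1 - θ) = Real.pi := by ring
        rw [this, Real.sin_pi]
    rw [this]
    ring
  have hs2 : 0 < Real.sin (Real.pi * (e₂ - θ)) := sin_pos' (by linarith) (by linarith)
  have h2x : form v₂ x = a * form v₂ v₂ := by
    rw [hab]
    simp only [map_add, map_smul, smul_eq_mul, h2n]
    ring
  rcases hφ with ⟨h, h'⟩ | h
  · left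
    have hs3 : 0 < Real.sin (Real.pi * (φ - θ)) := sin_pos' (by linarith) (by linarith)
    have hapos : 0 < a := by
      by_contra hcon
      push Not at hcon
      have h3 : 0 < m * Real.sin (Real.pi * (φ - θ)) := by positivity
      rw [him] at h3
      have h4 : a * (m₂ * Real.sin (Real.pi * (e₂ - θ))) ≤ 0 :=
        mul_nonpos_of_nonpos_of_nonneg hcon (by positivity)
      linarith
    rw [h2x]
    exact mul_neg_of_pos_of_neg hapos h22
  · right
    subst h
    have h3 : Real.sin (Real.pi * (φ - θ)) = 0 := by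
      rcases hη with rfl | rfl
      · rw [sub_self, mul_zero, Real.sin_zero]
      · have : Real.pi * (θ + 1 - θ) = Real.pi := by ring
        rw [this, Real.sin_pi]
    rw [h3, mul_zero] at him
    have ha0 : a = 0 := by
      rcases mul_eq_zero.1 him.symm with h4 | h4
      · exact h4
      · exfalso
        have : 0 < m₂ * Real.sin (Real.pi * (e₂ - θ)) := by positivity
        linarith
    refine ⟨by rw [h2x, ha0, zero_mul], ?_⟩
    have hbr : b * r = m := by
      have h5 : (m : ℂ) * ray φ = ((b * r : ℝ) : ℂ) * ray φ := by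
        rw [← hZx, hZx', ha0, zero_smul, zero_add, hZn, Complex.real_smul]
        push_cast
        ring
      have h6 := mul_right_cancel₀ (ray_ne _) h5
      exact_mod_cast h6.symm
    have hb : 0 < b := by
      by_contra hcon
      push Not at hcon
      have := mul_nonpos_of_nonpos_of_nonneg hcon hr.le
      linarith
    have : form v₁ x = b * form v₁ n := by
      rw [hab, ha0, zero_smul, zero_add, map_smul, smul_eq_mul]
    rw [this]
    exact mul_neg_of_pos_of_neg hb h1n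

end

lemma Slicing.heart_of_hn {T : Type u} [Category.{v} T] [Preadditive T] [HasZeroObject T]
    [HasShift T ℤ] [∀ n : ℤ, (shiftFunctor T n).Additive] [Pretriangulated T]
    [IsTriangulated T] (σ : Slicing T) (U : Set ℝ) (hU : IsUpperSet U) {X : T}
    {l : List ℝ} (h : HN σ.P l X) (h1 : ∀ φ ∈ l, φ ∈ U ∧ φ - 1 ∉ U) : (σ.t U hU).heart X := by
  rw [(σ.t U hU).mem_heart_iff]
  refine ⟨⟨?_⟩, ⟨?_⟩⟩
  · refine Fil.mono ?_ (h.fil U fun φ hφ => (h1 φ hφ).1)
    rintro Y ⟨φ, h2, h3⟩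
    exact ⟨φ, by simpa using h2, h3⟩
  · refine Fil.mono ?_ (h.fil {φ | φ - 1 ∉ U} fun φ hφ => (h1 φ hφ).2)
    rintro Y ⟨φ, h2, h3⟩
    exact ⟨φ, by simpa using h2, h3⟩

variable {C : Type u} [Category.{v} C] [Preadditive C] [HasZeroObject C] [HasShift C ℤ]
  [∀ n : ℤ, (shiftFunctor C n).Additive] [Pretriangulated C]
  {K : Type w} [Field K] [Linear K C]
  [IsTriangulated C] [∀ n : ℤ, (shiftFunctor C n).Linear K] (D : EnriquesType K C)
  (hadd : ClsAdditive D) (L : Fin 10 → C) (hL : IsExcOrth K L) (σ : PreStab D L)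

include hadd hL in
lemma core_gen (U : Set ℝ) (hU : IsUpperSet U) (θ η : ℝ) (hη : η = θ ∨ η = θ + 1)
    (hUin : ∀ φ, (φ ∈ U ∧ φ - 1 ∉ U) → ((θ < φ ∧ φ < θ + 1) ∨ φ = η))
    (hUin' : ∀ φ, θ < φ → φ < θ + 1 → (φ ∈ U ∧ φ - 1 ∉ U))
    {E G : (Ku L).FullSubcategory} {e : ℝ} (hE : Test D L σ E e) (he1 : θ < e) (he2 : e < θ + 1)
    (n : Fin 12 → ℝ) (hln : ∀ i, D.form (D.cls (L i)) n = 0)
    (h2n : D.form (D.cls E.obj) n = 0) (h1n : D.form (D.cls G.obj) n < 0) (r : ℝ) (hr : 0 < r)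
    (hZn : σ.Z n = r * ray η) (hWG : Ku L (D.W.obj G.obj))
    (lG lG' : List ℝ) (hG : HN σ.P lG G) (hG' : HN σ.P lG' ⟨D.W.obj G.obj, hWG⟩)
    (hlG : ∀ φ ∈ lG, θ < φ ∧ φ < θ + 1) (hlG' : ∀ φ ∈ lG', θ < φ ∧ φ < θ + 1) : False := by
  have hneg : ∀ x : Fin 12 → ℝ, (∀ i, D.form (D.cls (L i)) x = 0) → x ≠ 0 →
      D.form x x < 0 := by
    intro x hx hx0
    by_contra hcon
    push Not at hcon
    exact hx0 (neg_of_orth D.form D.form_symm D.plane (fun i => D.cls (L i)) (cls_L D L hL)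
      x hx hcon)
  obtain ⟨m₂, hm₂, hZ₂⟩ := σ.central e E hE.mem hE.ne
  have hv₂ : D.cls E.obj ≠ 0 := by
    intro h0
    rw [h0, map_zero] at hZ₂
    have : (m₂ : ℂ) ≠ 0 := by exact_mod_cast hm₂.ne'
    exact mul_ne_zero this (Complex.exp_ne_zero _) hZ₂.symm
  have hn0 : n ≠ 0 := by
    intro h0
    rw [h0, map_zero] at h1n
    exact lt_irrefl _ h1n
  obtain ⟨E', ⟨i⟩, hE'⟩ := hE.mem'
  have hW : Ku L (D.W.obj E.obj) := (Ku L).prop_of_iso i E'.property
  obtain ⟨hu1, hu2⟩ := hUin' e he1 he2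
  have hEh := σ.toSlicing.heart_of_mem U hU hE.mem hu1 hu2
  have hWEh : (σ.toSlicing.t U hU).heart (⟨D.W.obj E.obj, hW⟩ : (Ku L).FullSubcategory) := by
    have h7 := σ.toSlicing.heart_of_mem U hU hE' hu1 hu2
    have j : E' ≅ (⟨D.W.obj E.obj, hW⟩ : (Ku L).FullSubcategory) := (Ku L).ι.preimageIso i
    exact (σ.toSlicing.t U hU).heart.prop_of_iso j h7
  have hGh := σ.toSlicing.heart_of_hn U hU hG fun φ hφ => hUin' φ (hlG φ hφ).1 (hlG φ hφ).2
  have hWGh := σ.toSlicing.heart_of_hn U hU hG' fun φ hφ => hUin' φ (hlG' φ hφ).1 (hlG' φ hφ).2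
  have hθU : ∀ x : ℝ, θ < x → x ∈ U := fun x hx => by
    have h3 : min x (θ + 1 / 2) ∈ U :=
      (hUin' _ (lt_min hx (by linarith)) ((min_le_right _ _).trans_lt (by linarith))).1
    exact hU (min_le_left _ _) h3
  have hθU' : ∀ x : ℝ, x < θ → x ∉ U := fun x hx hc => by
    have h3 := (hUin' (θ + 1 / 2) (by linarith) (by linarith)).2
    have h4 := (hUin' (max (x + 1) (θ + 1 / 2)) (lt_max_of_lt_right (by linarith))
      (max_lt (by linarith) (by linarith))).2
    refine h4 (hU ?_ hc)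
    have := le_max_left (x + 1) (θ + 1 / 2)
    linarith
  refine no_test D L hL (σ.toSlicing.t U hU) (σ.toSlicing.t_bounded U hU ?_ ?_) ?_
  · intro x
    obtain ⟨k, hk⟩ := exists_nat_gt (θ - x)
    refine ⟨k, hθU _ ?_⟩
    push_cast
    linarith
  · intro x
    obtain ⟨k, hk⟩ := exists_nat_gt (x - θ)
    refine ⟨-k, hθU' _ ?_⟩
    push_cast
    linarith
  · intro V hVh hVz
    obtain ⟨l, hl, hlθ⟩ := σ.toSlicing.heart_hn U hU hVh
    have key := hl.additive (fun X => D.cls X.obj) (cls_sub_additive D hadd L)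
      (fun x => D.form (D.cls E.obj) x < 0 ∨
        (D.form (D.cls E.obj) x = 0 ∧ D.form (D.cls G.obj) x < 0)) (by
        rintro x y (hx | ⟨hx1, hx2⟩) (hy | ⟨hy1, hy2⟩)
        · left; rw [map_add]; linarith
        · left; rw [map_add, hy1]; linarith
        · left; rw [map_add, hx1]; linarith
        · right
          rw [map_add, map_add]
          exact ⟨by linarith, by linarith⟩) (by
        intro φ hφ F hF
        by_cases hFz : IsZero F
        · exact Or.inl hFz
        · right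
          obtain ⟨m, hm, hZ⟩ := σ.central φ F hF hFz
          exact la_window D.form D.form_symm D.plane (fun i => D.cls (L i)) (cls_L D L hL) σ.Z
            (D.cls G.obj) (D.cls E.obj) n (cls_mem D L E.property) hln
            (hneg _ (cls_mem D L E.property) hv₂) (hneg n hln hn0) h2n h1n e m₂ θ η r hm₂ hZ₂
            hr hZn hη he1 he2 (D.cls F.obj) (cls_mem D L F.property) φ m hm
            (hUin φ (hlθ φ hφ)) hZ)
    rcases key with hz | h | ⟨_, h⟩
    · exact absurd hz hVz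
    · refine ⟨E, hW, hEh, hWEh, ?_⟩
      rw [D.form_cls] at h
      exact_mod_cast h
    · refine ⟨G, hWG, hGh, hWGh, ?_⟩
      rw [D.form_cls] at h
      exact_mod_cast h

include hadd hL in
/-- test objects with small phase spread near a semistable test object are numerically
proportional to it. -/
theorem confine {E G : (Ku L).FullSubcategory} {e : ℝ} (hE : Test D L σ E e)
    (θ : ℝ) (he1 : e - 1 < θ) (he2 : θ < e)
    (n : Fin 12 → ℝ) (hln : ∀ i, D.form (D.cls (L i)) n = 0)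
    (h2n : D.form (D.cls E.obj) n = 0) (r : ℝ) (hr : r ≠ 0)
    (hZn : σ.Z n = r * ray θ) (hWG : Ku L (D.W.obj G.obj))
    (lG lG' : List ℝ) (hG : HN σ.P lG G) (hG' : HN σ.P lG' ⟨D.W.obj G.obj, hWG⟩)
    (hlG : ∀ φ ∈ lG, θ < φ ∧ φ < θ + 1) (hlG' : ∀ φ ∈ lG', θ < φ ∧ φ < θ + 1) :
    ∃ c : ℝ, D.cls G.obj = c • D.cls E.obj := by
  have hneg : ∀ x : Fin 12 → ℝ, (∀ i, D.form (D.cls (L i)) x = 0) → x ≠ 0 →
      D.form x x < 0 := by
    intro x hx hx0
    by_contra hcon
    push Not at hcon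
    exact hx0 (neg_of_orth D.form D.form_symm D.plane (fun i => D.cls (L i)) (cls_L D L hL)
      x hx hcon)
  obtain ⟨m₂, hm₂, hZ₂⟩ := σ.central e E hE.mem hE.ne
  have hv₂ : D.cls E.obj ≠ 0 := by
    intro h0
    rw [h0, map_zero] at hZ₂
    have : (m₂ : ℂ) ≠ 0 := by exact_mod_cast hm₂.ne'
    exact mul_ne_zero this (Complex.exp_ne_zero _) hZ₂.symm
  have hn0 : n ≠ 0 := by
    intro h0
    rw [h0, map_zero] at hZn
    have : (r : ℂ) ≠ 0 := by exact_mod_cast hr
    exact mul_ne_zero this (ray_ne _) hZn.symm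
  have hray : ray (θ + 1) = - ray θ := by
    unfold ray
    have : ((Real.pi * (θ + 1) : ℝ) : ℂ) * Complex.I =
        ((Real.pi * θ : ℝ) : ℂ) * Complex.I + Real.pi * Complex.I := by push_cast; ring
    rw [this, Complex.exp_add, Complex.exp_pi_mul_I]
    ring
  -- normalise `n` such that `Z n` has phase `θ`
  obtain ⟨n, hln, h2n, r, hr, hZn, hn0⟩ : ∃ n : Fin 12 → ℝ,
      (∀ i, D.form (D.cls (L i)) n = 0) ∧ D.form (D.cls E.obj) n = 0 ∧
      ∃ r : ℝ, 0 < r ∧ σ.Z n = r * ray θ ∧ n ≠ 0 := by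
    rcases lt_or_gt_of_ne hr with h | h
    · refine ⟨-n, fun i => by rw [map_neg, hln, neg_zero], by rw [map_neg, h2n, neg_zero], -r,
        by linarith, ?_, neg_ne_zero.2 hn0⟩
      rw [map_neg, hZn]
      push_cast
      ring
    · exact ⟨n, hln, h2n, r, h, hZn, hn0⟩
  have hnn := hneg n hln hn0
  obtain ⟨a, b, hab⟩ := span_H D.form D.form_symm D.plane (fun i => D.cls (L i))
    (cls_L D L hL) (D.cls E.obj) n (cls_mem D L E.property) hln
    (hneg _ (cls_mem D L E.property) hv₂) hnn h2n (D.cls G.obj) (cls_mem D L G.property)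
  have hGn : D.form (D.cls G.obj) n = b * D.form n n := by
    rw [hab]
    simp only [map_add, map_smul, LinearMap.add_apply, LinearMap.smul_apply, smul_eq_mul, h2n]
    ring
  rcases lt_trichotomy b 0 with hb | hb | hb
  · exfalso
    -- use `-n`, of phase `θ + 1`
    refine core_gen D hadd L hL σ (Set.Ioi θ) (isUpperSet_Ioi θ) θ (θ + 1) (Or.inr rfl) ?_ ?_ hE
      (by linarith) (by linarith) (-n) (fun i => by rw [map_neg, hln, neg_zero])
      (by rw [map_neg, h2n, neg_zero]) ?_ r hr ?_ hWG lG lG' hG hG' hlG hlG'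
    · rintro φ ⟨h1, h2⟩
      have h1' : θ < φ := h1
      have h2' : φ - 1 ≤ θ := by
        by_contra hcon
        push Not at hcon
        exact h2 hcon
      rcases lt_or_eq_of_le (show φ ≤ θ + 1 by linarith) with h | h
      · exact Or.inl ⟨h1', h⟩
      · exact Or.inr h
    · intro φ h1 h2
      refine ⟨h1, ?_⟩
      intro h3
      have : θ < φ - 1 := h3
      linarith
    · rw [map_neg, hGn]
      have := mul_pos_of_neg_of_neg hb hnn
      linarith
    · rw [map_neg, hZn, hray]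
      ring
  · exact ⟨a, by rw [hab, hb, zero_smul, add_zero]⟩
  · exfalso
    refine core_gen D hadd L hL σ (Set.Ici θ) (isUpperSet_Ici θ) θ θ (Or.inl rfl) ?_ ?_ hE
      (by linarith) (by linarith) n hln h2n ?_ r hr hZn hWG lG lG' hG hG' hlG hlG'
    · rintro φ ⟨h1, h2⟩
      have h1' : θ ≤ φ := h1
      have h2' : φ - 1 < θ := by
        by_contra hcon
        push Not at hcon
        exact h2 hcon
      rcases lt_or_eq_of_le h1' with h | h
      · exact Or.inl ⟨h, by linarith⟩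
      · exact Or.inr h.symm
    · intro φ h1 h2
      refine ⟨h1.le, ?_⟩
      intro h3
      have : θ ≤ φ - 1 := h3
      linarith
    · rw [hGn]
      exact mul_neg_of_pos_of_neg hb hnn

end Pool.Agent.Helper6.KE
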