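import Mathlib

namespace Pool.Agent.Helper6.KE

open CategoryTheory CategoryTheory.Limits CategoryTheory.Pretriangulated Module

universe v u w

section

variable {C : Type u} [Category.{v} C] [Preadditive C] [HasShift C ℤ]

/-- The Euler form `chi(X, Y)`, the alternating sum over all integers `n` of the dimensions of
`Hom(X, Y[n])` over `K` (a finite sum whenever all but finitely many of these spaces are zero). -/
noncomputable def chi (K : Type w) [Field K] [Linear K C] (X Y : C) : ℤ :=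
  ∑ᶠ n : ℤ, ((n.negOnePow : ℤˣ) : ℤ) * (finrank K (X ⟶ Y⟦n⟧) : ℤ)

/-- `IsExcOrth K L`: the ten objects `L i` are exceptional (`Hom(L i, L i)` has dimension one and
`Hom(L i, L i[n]) = 0` for `n ≠ 0`) and completely orthogonal (`Hom(L i, L j[n]) = 0` for all `n`
and all `i ≠ j`). -/
structure IsExcOrth (K : Type w) [Field K] [Linear K C] (L : Fin 10 → C) : Prop where
  one : ∀ i, finrank K (L i ⟶ L i) = 1
  exc : ∀ i (n : ℤ), n ≠ 0 → ∀ f : L i ⟶ (L i)⟦n⟧, f = 0
  orth : ∀ i j, i ≠ j → ∀ (n : ℤ) (f : L i ⟶ (L j)⟦n⟧), f = 0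

/-- The Kuznetsov component: the objects `E` with `Hom(L i, E[n]) = 0` for all `i` and `n`. -/
def Ku (L : Fin 10 → C) : ObjectProperty C :=
  fun E => ∀ i (n : ℤ) (f : L i ⟶ E⟦n⟧), f = 0

end

/-- `EnriquesType K C`: the `K`-linear triangulated category `C` has the formal properties of
`D^b(X)` for an Enriques surface `X`: finite dimensional total Hom spaces; a Serre functor of the
form `W[2]`, where `W` is an involution (the twist by the canonical bundle), given by trace maps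
`Hom(X, W(X)[2]) → K` that are compatible with composition and induce perfect pairings
`Hom(X, Y) × Hom(Y, W(X)[2]) → K`; and a class map to `ℝ^12` (the numerical Grothendieck group
tensor `ℝ`) with a symmetric bilinear form which gives the Euler form and is negative definite on
some plane. -/
structure EnriquesType (K : Type w) [Field K] (C : Type u) [Category.{v} C] [Preadditive C]
    [HasShift C ℤ] [Linear K C] where
  homFinite : ∀ X Y : C, FiniteDimensional K (X ⟶ Y)
  extFinite : ∀ X Y : C, {n : ℤ | ∃ f : X ⟶ Y⟦n⟧, f ≠ 0}.Finite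
  /-- the twist by the canonical bundle -/
  W : C ⥤ C
  [commShift : W.CommShift ℤ]
  sq : W ⋙ W ≅ 𝟭 C
  /-- the trace maps of Serre duality -/
  tr : ∀ X : C, (X ⟶ (W.obj X)⟦(2 : ℤ)⟧) →ₗ[K] K
  tr_comm : ∀ {X Y : C} (f : X ⟶ Y) (g : Y ⟶ (W.obj X)⟦(2 : ℤ)⟧),
    tr Y (g ≫ (W.map f)⟦(2 : ℤ)⟧') = tr X (f ≫ g)
  left : ∀ {X Y : C} (f : X ⟶ Y), f ≠ 0 → ∃ g : Y ⟶ (W.obj X)⟦(2 : ℤ)⟧, tr X (f ≫ g) ≠ 0
  right : ∀ {X Y : C} (g : Y ⟶ (W.obj X)⟦(2 : ℤ)⟧), g ≠ 0 → ∃ f : X ⟶ Y, tr X (f ≫ g) ≠ 0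
  /-- the numerical class -/
  cls : C → (Fin 12 → ℝ)
  /-- the Euler form on classes -/
  form : LinearMap.BilinForm ℝ (Fin 12 → ℝ)
  form_symm : ∀ x y, form x y = form y x
  form_cls : ∀ X Y : C, form (cls X) (cls Y) = (chi K X Y : ℝ)
  plane : ∃ P : Submodule ℝ (Fin 12 → ℝ), finrank ℝ P = 2 ∧ ∀ x ∈ P, x ≠ 0 → form x x < 0

end Pool.Agent.Helper6.KE
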