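import Pool.Agent.Helper6.KE.Key

namespace Pool.Agent.Helper6.KE

open CategoryTheory CategoryTheory.Limits CategoryTheory.Pretriangulated Module
open CategoryTheory.Triangulated

universe v u w

variable {C : Type u} [Category.{v} C] [Preadditive C] [HasZeroObject C] [HasShift C ℤ]
  [∀ n : ℤ, (shiftFunctor C n).Additive] [Pretriangulated C]

/-- If `Hom(E, F[k]) = 0` for `k ≥ 4` on the heart, then `Hom(X, F[k]) = 0` for `X ≥ c`
bounded, `F` in the heart and `k + c ≥ 4`. -/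
lemma hv_of_ge (t : TStructure C)
    (hd : ∀ E F : C, t.heart E → t.heart F → ∀ k : ℤ, 4 ≤ k → HV E F k)
    {F : C} (hF : t.heart F) (m : ℕ) :
    ∀ (c : ℤ) (X : C), t.IsGE X c → t.IsLE X (c + m) → ∀ k : ℤ, 4 ≤ k + c → HV X F k := by
  induction m with
  | zero =>
    intro c X h1 h2 k hk
    have h2' : t.IsLE X c := by simpa using h2
    have hX : t.heart (X⟦c⟧) := by
      rw [t.mem_heart_iff]
      exact ⟨t.isLE_shift X c c 0 (by omega), t.isGE_shift X c c 0 (by omega)⟩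
    exact (hd _ _ hX hF (k + c) hk).shift_left c k rfl
  | succ m ih =>
    intro c X h1 h2 k hk
    obtain ⟨X', X'', hX', hX'', f, g, h, hT⟩ := t.exists_triangle X c (c + 1) rfl
    have hX'1 : t.IsLE X' c := ⟨hX'⟩
    have hX''1 : t.IsGE X'' (c + 1) := ⟨hX''⟩
    -- `X'` is also `≥ c`
    have hX'2 : t.IsGE X' c := by
      refine t.isGE₂ _ (inv_rot_of_distTriang _ hT) c ?_ h1
      change t.IsGE (X''⟦(-1 : ℤ)⟧) c
      have := t.isGE_shift X'' (c + 1) (-1) (c + 2) (by omega)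
      exact t.isGE_of_ge _ c (c + 2) (by omega)
    -- `X''` is also `≤ c + m + 1`
    have hX''2 : t.IsLE X'' (c + 1 + m) := by
      refine t.isLE₂ _ (rot_of_distTriang _ hT) (c + 1 + m) ?_ ?_
      · change t.IsLE X (c + 1 + m)
        have : c + 1 + (m : ℤ) = c + ((m + 1 : ℕ) : ℤ) := by push_cast; ring
        rw [this]; exact h2
      · change t.IsLE (X'⟦(1 : ℤ)⟧) (c + 1 + m)
        have := t.isLE_shift X' c 1 (c - 1) (by omega)
        exact t.isLE_of_le _ (c - 1) _ (by omega)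
    intro φ
    have hX'h : t.heart (X'⟦c⟧) := by
      rw [t.mem_heart_iff]
      exact ⟨t.isLE_shift X' c c 0 (by omega), t.isGE_shift X' c c 0 (by omega)⟩
    have h0 : f ≫ φ = 0 := (hd _ _ hX'h hF (k + c) hk).shift_left c k rfl _
    obtain ⟨ψ, hψ⟩ := Triangle.yoneda_exact₂ _ hT φ h0
    have h3 : HV X'' F k := ih (c + 1) X'' hX''1 hX''2 k (by omega)
    have h4 : ψ = 0 := h3 ψ
    rw [hψ, h4]
    exact comp_zero

variable (K : Type w) [Field K] [Linear K C] [∀ n : ℤ, (shiftFunctor C n).Linear K]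

/-- 3-Calabi-Yau objects: composition into `Hom(S, S[3])` followed by a functional is a perfect
pairing between `Hom(E, S[a])` and `Hom(S, E[3 - a])`. -/
structure CY3 (S : C) where
  /-- the functional -/
  tr : (S ⟶ S⟦(3 : ℤ)⟧) →ₗ[K] K
  left : ∀ (E : C) (a b : ℤ) (h : a + b = 3) (f : E ⟶ S⟦a⟧), f ≠ 0 →
      ∃ g : S ⟶ E⟦b⟧, tr (ShiftedHom.comp g f h) ≠ 0
  right : ∀ (E : C) (a b : ℤ) (h : a + b = 3) (g : S ⟶ E⟦b⟧), g ≠ 0 →
      ∃ f : E ⟶ S⟦a⟧, tr (ShiftedHom.comp g f h) ≠ 0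

lemma finrank_shift (X Y : C) (b n : ℤ) :
    finrank K (X⟦b⟧ ⟶ Y⟦b⟧⟦n⟧) = finrank K (X ⟶ Y⟦n⟧) := by
  have e1 : (X ⟶ Y⟦n⟧) ≃ₗ[K] (X⟦b⟧ ⟶ Y⟦n⟧⟦b⟧) :=
    LinearEquiv.ofBijective ((shiftFunctor C b).mapLinearMap K)
      ⟨(shiftFunctor C b).map_injective, (shiftFunctor C b).map_surjective⟩
  have e2 : (X⟦b⟧ ⟶ Y⟦n⟧⟦b⟧) ≃ₗ[K] (X⟦b⟧ ⟶ Y⟦b⟧⟦n⟧) :=
    Linear.homCongr K (Iso.refl _) ((shiftFunctorComm C n b).app Y)
  exact (e1.trans e2).finrank_eq.symm

variable [∀ X Y : C, FiniteDimensional K (X ⟶ Y)]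

/-- The main abstract theorem: a bounded t-structure whose heart has homological dimension `≤ 3`
in a category with a nonzero 3-Calabi-Yau object has a nonzero heart object `E` with
`ext^3 = hom` and `ext^1 ≤ ext^2`. -/
theorem heart_dims (t : TStructure C)
    (hd : ∀ E F : C, t.heart E → t.heart F → ∀ k : ℤ, 4 ≤ k → HV E F k)
    (hb : ∀ E : C, t.bounded E) (S : C) (hS : ¬ IsZero S) (cy : CY3 K S) :
    ∃ E : C, t.heart E ∧ ¬ IsZero E ∧
      finrank K (E ⟶ E⟦(3 : ℤ)⟧) = finrank K (E ⟶ E⟦(0 : ℤ)⟧) ∧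
      finrank K (E ⟶ E⟦(1 : ℤ)⟧) ≤ finrank K (E ⟶ E⟦(2 : ℤ)⟧) := by
  obtain ⟨⟨l, hl⟩, ⟨r, hr⟩⟩ := hb S
  -- the maximal `b` with `S ≥ b`
  have hex : ∃ b : ℤ, t.IsGE S b ∧ ¬ t.IsGE S (b + 1) := by
    by_contra hcon
    push Not at hcon
    have hall : ∀ n : ℕ, t.IsGE S (l + n) := by
      intro n
      induction n with
      | zero => simpa using hl
      | succ n ih =>
        have := hcon (l + n) ih
        have e : l + ((n + 1 : ℕ) : ℤ) = l + n + 1 := by push_cast; ring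
        rw [e]; exact this
    have h1 := hall (r - l + 1).toNat
    have h2 : t.IsGE S (r + 1) := t.isGE_of_ge S (r + 1) (l + (r - l + 1).toNat) (by omega)
    exact hS (t.isZero S r (r + 1) (by omega))
  obtain ⟨b, hb1, hb2⟩ := hex
  obtain ⟨M, B, hM, hB, i, q, δ, hT⟩ := t.exists_triangle S b (b + 1) rfl
  have hM1 : t.IsLE M b := ⟨hM⟩
  have hB1 : t.IsGE B (b + 1) := ⟨hB⟩
  have hM2 : t.IsGE M b := by
    refine t.isGE₂ _ (inv_rot_of_distTriang _ hT) b ?_ hb1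
    change t.IsGE (B⟦(-1 : ℤ)⟧) b
    have := t.isGE_shift B (b + 1) (-1) (b + 2) (by omega)
    exact t.isGE_of_ge _ b (b + 2) (by omega)
  have hMh : t.heart (M⟦b⟧) := by
    rw [t.mem_heart_iff]
    exact ⟨t.isLE_shift M b b 0 (by omega), t.isGE_shift M b b 0 (by omega)⟩
  have hMz : ¬ IsZero M := by
    intro hz
    apply hb2
    have hiso : IsIso q := (Triangle.isZero₁_iff_isIso₂ _ hT).1 hz
    exact t.isGE_of_iso (asIso q).symm (b + 1)
  -- vanishing statements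
  have v0 : ∀ n : ℤ, n ≤ 0 → HV M B n := by
    intro n hn
    have hB2 : t.IsGE (B⟦n⟧) (b + 1 - n) := t.isGE_shift B (b + 1) n _ (by omega)
    exact fun f => t.zero f b (b + 1 - n) (by omega)
  have v3 : ∀ n : ℤ, 3 ≤ n → HV B M n := by
    intro n hn
    obtain ⟨_, ⟨r', hr'⟩⟩ := hb B
    have hle : t.IsLE B (b + 1 + (r' - b - 1).toNat) :=
      t.isLE_of_le B r' _ (by omega)
    have h := hv_of_ge t hd hMh (r' - b - 1).toNat (b + 1) B hB1 hle (n - b) (by omega)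
    -- Hom(B, M[b][n - b]) = 0
    exact h.of_shift_right b n (by omega)
  have hk := key_dims K _ hT cy.tr (fun a b h f hf => cy.left M a b h f hf)
    (fun a b h g hg => cy.right M a b h g hg) (v0 0 le_rfl) (v0 (-1) (by norm_num))
    (v3 3 le_rfl) (v3 4 (by norm_num))
  refine ⟨M⟦b⟧, hMh, ?_, ?_, ?_⟩
  · intro hz
    apply hMz
    rw [IsZero.iff_id_eq_zero] at hz ⊢
    apply (shiftFunctor C b).map_injective
    rw [CategoryTheory.Functor.map_id, hz, Functor.map_zero]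
  · rw [finrank_shift, finrank_shift]; exact hk.1
  · rw [finrank_shift, finrank_shift]; exact hk.2

end Pool.Agent.Helper6.KE
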