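import Pool.Agent.Helper6.KE.Proj

namespace Pool.Agent.Helper6.KE

open CategoryTheory CategoryTheory.Limits CategoryTheory.Pretriangulated Module
open CategoryTheory.Triangulated
open scoped ZeroObject

universe v u w

variable {C : Type u} [Category.{v} C] [Preadditive C] [HasZeroObject C] [HasShift C ℤ]
  [∀ n : ℤ, (shiftFunctor C n).Additive] [Pretriangulated C]
  {K : Type w} [Field K] [Linear K C]

lemma hv_sub_iff (P : ObjectProperty C) [P.IsTriangulated] (X Y : P.FullSubcategory) (n : ℤ) :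
    HV X Y n ↔ HV X.obj Y.obj n := by
  constructor
  · intro h f
    obtain ⟨g, hg⟩ := P.ι.map_surjective (f ≫ ((P.ι.commShiftIso n).app Y).inv)
    have h1 : P.ι.map g = 0 := by rw [h g, Functor.map_zero]
    rw [h1] at hg
    rw [← cancel_mono ((P.ι.commShiftIso n).app Y).inv, ← hg, zero_comp]
  · intro h f
    have h1 := h (P.ι.map f ≫ ((P.ι.commShiftIso n).app Y).hom)
    have h2 : P.ι.map f = 0 := by
      rw [← cancel_mono ((P.ι.commShiftIso n).app Y).hom, zero_comp]
      exact h1
    apply P.ι.map_injective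
    rw [h2, Functor.map_zero]

lemma hv_heart {T : Type*} [Category T] [Preadditive T] [HasZeroObject T] [HasShift T ℤ]
    [∀ n : ℤ, (shiftFunctor T n).Additive] [Pretriangulated T] (t : TStructure T) {X Y : T}
    (a b n : ℤ) (hX : t.IsLE X a) (hY : t.IsGE Y b) (h : a + n < b) : HV X Y n := by
  intro f
  have := t.isGE_shift Y b n (b - n) (by ring)
  exact t.zero f a (b - n) (by omega)

/-- a negative Euler characteristic in the window `0, 1, 2` gives an `Ext^1`. -/
lemma not_hv_one {X Y : C} (h : chi K X Y < 0) (h1 : ∀ n : ℤ, n < 0 ∨ 2 < n → HV X Y n) :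
    ¬ HV X Y 1 := by
  intro h2
  apply absurd h
  push Not
  unfold chi
  refine finsum_nonneg ?_
  intro n
  by_cases hn : n = 0 ∨ n = 2
  · have : ((n.negOnePow : ℤˣ) : ℤ) = 1 := by
      rcases hn with rfl | rfl
      · simp
      · rw [Int.negOnePow_even 2 (by decide)]; rfl
    rw [this]
    positivity
  · have hs : Subsingleton (X ⟶ Y⟦n⟧) := by
      have h3 : HV X Y n := by
        by_cases hn1 : n = 1
        · subst hn1; exact h2
        · exact h1 n (by omega)
      exact ⟨fun a b => by rw [h3 a, h3 b]⟩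
    rw [finrank_zero_of_subsingleton]
    simp

theorem heart_hd [∀ n : ℤ, (shiftFunctor C n).Linear K] (D : EnriquesType K C) (L : Fin 10 → C)
    (hL : IsExcOrth K L) (t : TStructure (Ku L).FullSubcategory) (hb : ∀ E, t.bounded E)
    (htest : ∀ U : (Ku L).FullSubcategory, t.heart U → ¬ IsZero U →
      ∃ (E : (Ku L).FullSubcategory) (hW : Ku L (D.W.obj E.obj)), t.heart E ∧
        t.heart (⟨D.W.obj E.obj, hW⟩ : (Ku L).FullSubcategory) ∧ chi K E.obj U.obj < 0)
    (A F : (Ku L).FullSubcategory) (hA : t.heart A) (hF : t.heart F) (k : ℤ) (hk : 4 ≤ k) :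
    HV A F k := by
  have hA' := (t.mem_heart_iff A).1 hA
  have hF' := (t.mem_heart_iff F).1 hF
  obtain ⟨Y', hY', hproj⟩ := exists_proj D L hL _ (D.W.obj A.obj) le_rfl
  let Y : (Ku L).FullSubcategory := ⟨Y', hY'⟩
  have hGE : t.IsGE Y (-1) := by
    by_contra hcon
    obtain ⟨⟨l, hl⟩, _⟩ := hb Y
    have hex : ∃ c : ℤ, c ≤ -2 ∧ t.IsGE Y c ∧ ¬ t.IsGE Y (c + 1) := by
      by_contra hcon2
      push Not at hcon2
      have hall : ∀ n : ℕ, l + n ≤ -1 → t.IsGE Y (l + n) := by
        intro n
        induction n with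
        | zero => intro _; simpa using hl
        | succ n ih =>
          intro hn
          have h1 := hcon2 (l + n) (by push_cast at hn; omega) (ih (by push_cast at hn; omega))
          have e : l + ((n + 1 : ℕ) : ℤ) = l + n + 1 := by push_cast; ring
          rw [e]; exact h1
      by_cases hl1 : -1 ≤ l
      · exact hcon (t.isGE_of_ge Y (-1) l hl1)
      · have h1 := hall (-1 - l).toNat (by omega)
        have e : l + ((-1 - l).toNat : ℤ) = -1 := by omega
        rw [e] at h1
        exact hcon h1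
    obtain ⟨c, hc, hc1, hc2⟩ := hex
    obtain ⟨M, B, hM, hB, i, q, δ, hT⟩ := t.exists_triangle Y c (c + 1) rfl
    have hM1 : t.IsLE M c := ⟨hM⟩
    have hB1 : t.IsGE B (c + 1) := ⟨hB⟩
    have hM2 : t.IsGE M c := by
      refine t.isGE₂ _ (inv_rot_of_distTriang _ hT) c ?_ hc1
      change t.IsGE (B⟦(-1 : ℤ)⟧) c
      have := t.isGE_shift B (c + 1) (-1) (c + 2) (by omega)
      exact t.isGE_of_ge _ c (c + 2) (by omega)
    have hMh : t.heart (M⟦c⟧) := by
      rw [t.mem_heart_iff]
      exact ⟨t.isLE_shift M c c 0 (by omega), t.isGE_shift M c c 0 (by omega)⟩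
    have hMz : ¬ IsZero (M⟦c⟧) := by
      intro hz
      have hz' : IsZero M := by
        rw [IsZero.iff_id_eq_zero] at hz ⊢
        apply (shiftFunctor (Ku L).FullSubcategory c).map_injective
        rw [CategoryTheory.Functor.map_id, hz, Functor.map_zero]
      apply hc2
      have hiso : IsIso q := (Triangle.isZero₁_iff_isIso₂ _ hT).1 hz'
      exact t.isGE_of_iso (asIso q).symm (c + 1)
    obtain ⟨E, hW, hE, hWE, hchi⟩ := htest _ hMh hMz
    have hE' := (t.mem_heart_iff _).1 hE
    have hWE' := (t.mem_heart_iff _).1 hWE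
    have hMh' := (t.mem_heart_iff _).1 hMh
    have hwin : ∀ n : ℤ, n < 0 ∨ 2 < n → HV E.obj (M⟦c⟧).obj n := by
      intro n hn
      rcases hn with hn | hn
      · rw [← hv_sub_iff]
        exact hv_heart t 0 0 n hE'.1 hMh'.2 (by omega)
      · rw [← hv_W_iff D (2 - n) n (by ring)]
        have := hv_heart t 0 0 (2 - n) hMh'.1 hWE'.2 (by omega)
        exact (hv_sub_iff (Ku L) _ _ _).1 this
    have h1 : ¬ HV E (M⟦c⟧) 1 := by
      rw [hv_sub_iff]
      exact not_hv_one hchi hwin
    have h2 : ¬ HV E M (1 + c) := fun h => h1 (h.shift_right c 1 (by ring))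
    have h3 : ¬ HV E Y (1 + c) := by
      intro h
      apply h2
      intro φ
      have hEB : HV E B c := hv_heart t 0 (c + 1) c hE'.1 hB1 (by omega)
      exact coyo₁ _ hT (1 + c) c (by ring) hEB φ (h _)
    apply h3
    rw [hv_sub_iff, hproj E.obj E.property, hv_W_iff D (1 + c) (1 - c) (by ring)]
    have h4 : HV A.obj (D.W.obj (D.W.obj E.obj)) (1 - c) := by
      rw [hv_W_iff D (1 - c) (1 + c) (by ring)]
      have := hv_heart t 0 0 (1 + c) hWE'.1 hA'.2 (by omega)
      exact (hv_sub_iff (Ku L) _ _ _).1 this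
    exact h4.of_iso_right (D.sq.app E.obj).symm
  rw [hv_sub_iff, ← hv_W_iff D (2 - k) k (by ring), ← hproj F.obj F.property]
  exact (hv_sub_iff (Ku L) F Y (2 - k)).1 (hv_heart t 0 (-1) (2 - k) hF'.1 hGE (by omega))

end Pool.Agent.Helper6.KE
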