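import Pool.Agent.Helper6.KE.Basic

namespace Pool.Agent.Helper6.KE

open CategoryTheory CategoryTheory.Limits CategoryTheory.Pretriangulated Module

universe v u w

variable {C : Type u} [Category.{v} C] [Preadditive C] [HasZeroObject C] [HasShift C ℤ]
  [∀ n : ℤ, (shiftFunctor C n).Additive] [Pretriangulated C]
  (K : Type w) [Field K] [Linear K C] [∀ n : ℤ, (shiftFunctor C n).Linear K]

/-- The composition pairing `(g, f)` in `Hom(S, M[b]) x Hom(M, S[a])` followed by a functional. -/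
noncomputable def pair {S M : C} (tr : (S ⟶ S⟦(3 : ℤ)⟧) →ₗ[K] K) (a b : ℤ) (h : a + b = 3) :
    (M ⟶ S⟦a⟧) →ₗ[K] (S ⟶ M⟦b⟧) →ₗ[K] K :=
  LinearMap.mk₂ K (fun (f : M ⟶ S⟦a⟧) (g : S ⟶ M⟦b⟧) => tr (ShiftedHom.comp g f h))
    (fun f f' g => by simp)
    (fun c f g => by simp)
    (fun f g g' => by simp)
    (fun c f g => by simp)

@[simp] lemma pair_apply {S M : C} (tr : (S ⟶ S⟦(3 : ℤ)⟧) →ₗ[K] K) (a b : ℤ) (h : a + b = 3)
    (f : M ⟶ S⟦a⟧) (g : S ⟶ M⟦b⟧) : pair K tr a b h f g = tr (ShiftedHom.comp g f h) := rfl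

lemma comp_vanish {S M B : C} (q : S ⟶ B) (i : M ⟶ S) (h3 : HV B M 3)
    (w : B ⟶ M⟦(2 : ℤ)⟧) (f : M ⟶ M⟦(1 : ℤ)⟧) (h : (1 : ℤ) + 2 = 3) :
    ShiftedHom.comp (q ≫ w : S ⟶ M⟦(2 : ℤ)⟧) (f ≫ i⟦(1 : ℤ)⟧' : M ⟶ S⟦(1 : ℤ)⟧) h = 0 := by
  have h1 : ShiftedHom.comp (w : B ⟶ M⟦(2 : ℤ)⟧) (f : M ⟶ M⟦(1 : ℤ)⟧) h = 0 := h3 _
  have h2 : ShiftedHom.comp (q ≫ w : S ⟶ M⟦(2 : ℤ)⟧) (f ≫ i⟦(1 : ℤ)⟧' : M ⟶ S⟦(1 : ℤ)⟧) h
      = q ≫ ShiftedHom.comp (w : B ⟶ M⟦(2 : ℤ)⟧) (f : M ⟶ M⟦(1 : ℤ)⟧) h ≫ i⟦(3 : ℤ)⟧' := by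
    simp only [ShiftedHom.comp, Functor.map_comp, Category.assoc]
    congr 3
    exact (shiftFunctorAdd' C 1 2 3 h).inv.naturality i
  rw [h2, h1, zero_comp, comp_zero]

variable [∀ X Y : C, FiniteDimensional K (X ⟶ Y)]

/-- The two dimension relations for a truncation `M ⟶ S ⟶ B` of a 3-Calabi-Yau object `S`. -/
theorem key_dims (T : Triangle C) (hT : T ∈ distTriang C)
    (tr : (T.obj₂ ⟶ T.obj₂⟦(3 : ℤ)⟧) →ₗ[K] K)
    (left : ∀ (a b : ℤ) (h : a + b = 3) (f : T.obj₁ ⟶ T.obj₂⟦a⟧), f ≠ 0 →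
      ∃ g : T.obj₂ ⟶ T.obj₁⟦b⟧, tr (ShiftedHom.comp g f h) ≠ 0)
    (right : ∀ (a b : ℤ) (h : a + b = 3) (g : T.obj₂ ⟶ T.obj₁⟦b⟧), g ≠ 0 →
      ∃ f : T.obj₁ ⟶ T.obj₂⟦a⟧, tr (ShiftedHom.comp g f h) ≠ 0)
    (h0 : HV T.obj₁ T.obj₃ 0) (h1 : HV T.obj₁ T.obj₃ (-1))
    (h3 : HV T.obj₃ T.obj₁ 3) (h4 : HV T.obj₃ T.obj₁ 4) :
    finrank K (T.obj₁ ⟶ T.obj₁⟦(3 : ℤ)⟧) = finrank K (T.obj₁ ⟶ T.obj₁⟦(0 : ℤ)⟧) ∧
    finrank K (T.obj₁ ⟶ T.obj₁⟦(1 : ℤ)⟧) ≤ finrank K (T.obj₁ ⟶ T.obj₁⟦(2 : ℤ)⟧) := by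
  -- the maps
  let α : ∀ n : ℤ, (T.obj₁ ⟶ T.obj₁⟦n⟧) →ₗ[K] (T.obj₁ ⟶ T.obj₂⟦n⟧) :=
    fun n => Linear.rightComp K T.obj₁ (T.mor₁⟦n⟧')
  let β : ∀ n : ℤ, (T.obj₂ ⟶ T.obj₁⟦n⟧) →ₗ[K] (T.obj₁ ⟶ T.obj₁⟦n⟧) :=
    fun n => Linear.leftComp K (T.obj₁⟦n⟧) T.mor₁
  have hα : ∀ n f, α n f = f ≫ T.mor₁⟦n⟧' := fun n f => rfl
  have hβ : ∀ n g, β n g = T.mor₁ ≫ g := fun n g => rfl
  have pinj : ∀ a b (h : a + b = 3), Function.Injective (pair K (M := T.obj₁) tr a b h) := by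
    intro a b h
    rw [← LinearMap.ker_eq_bot, LinearMap.ker_eq_bot']
    intro f hf
    by_contra hne
    obtain ⟨g, hg⟩ := left a b h f hne
    exact hg (by simpa using LinearMap.congr_fun hf g)
  have pinj' : ∀ a b (h : a + b = 3),
      Function.Injective (pair K (M := T.obj₁) tr a b h).flip := by
    intro a b h
    rw [← LinearMap.ker_eq_bot, LinearMap.ker_eq_bot']
    intro g hg
    by_contra hne
    obtain ⟨f, hf⟩ := right a b h g hne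
    exact hf (by simpa using LinearMap.congr_fun hg f)
  have α0inj : Function.Injective (α 0) := by
    rw [← LinearMap.ker_eq_bot, LinearMap.ker_eq_bot']
    intro f hf
    exact coyo₁ T hT 0 (-1) (by norm_num) h1 f (by rw [← hα, hf])
  have α0surj : Function.Surjective (α 0) := by
    intro f
    obtain ⟨g, hg⟩ := coyo₂ T hT 0 f (h0 _)
    exact ⟨g, by rw [hα, hg]⟩
  have α1inj : Function.Injective (α 1) := by
    rw [← LinearMap.ker_eq_bot, LinearMap.ker_eq_bot']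
    intro f hf
    exact coyo₁ T hT 1 0 (by norm_num) h0 f (by rw [← hα, hf])
  have β3inj : Function.Injective (β 3) := by
    rw [← LinearMap.ker_eq_bot, LinearMap.ker_eq_bot']
    intro g hg
    obtain ⟨w, hw⟩ := Triangle.yoneda_exact₂ T hT g (by rw [← hβ, hg])
    rw [hw, h3 w, comp_zero]
  have β3surj : Function.Surjective (β 3) := by
    intro f
    obtain ⟨g, hg⟩ := yo₁' T hT 3 4 (by norm_num) h4 f
    exact ⟨g, by rw [hβ, hg]⟩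
  have β2surj : Function.Surjective (β 2) := by
    intro f
    obtain ⟨g, hg⟩ := yo₁' T hT 2 3 (by norm_num) h3 f
    exact ⟨g, by rw [hβ, hg]⟩
  have hpair : ∀ a b : ℤ, a + b = 3 →
      finrank K (T.obj₁ ⟶ T.obj₂⟦a⟧) = finrank K (T.obj₂ ⟶ T.obj₁⟦b⟧) := by
    intro a b h
    apply le_antisymm
    · have := LinearMap.finrank_le_finrank_of_injective (pinj a b h)
      rwa [Subspace.dual_finrank_eq] at this
    · have := LinearMap.finrank_le_finrank_of_injective (pinj' a b h)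
      rwa [Subspace.dual_finrank_eq] at this
  constructor
  · have e1 := (LinearEquiv.ofBijective (α 0) ⟨α0inj, α0surj⟩).finrank_eq
    have e2 := (LinearEquiv.ofBijective (β 3) ⟨β3inj, β3surj⟩).finrank_eq
    rw [e1, ← e2, hpair 0 3 (by norm_num)]
  · -- the composite lands in the annihilator of the kernel of `β 2`
    let P := pair K (M := T.obj₁) tr 1 2 (by norm_num)
    have hland : ∀ f, P (α 1 f) ∈ (LinearMap.ker (β 2)).dualAnnihilator := by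
      intro f
      rw [Submodule.mem_dualAnnihilator]
      intro g hg
      obtain ⟨w, hw⟩ := Triangle.yoneda_exact₂ T hT g (by
        rw [← hβ]; exact hg)
      have : ShiftedHom.comp (T.mor₂ ≫ w : T.obj₂ ⟶ T.obj₁⟦(2 : ℤ)⟧)
          (f ≫ T.mor₁⟦(1 : ℤ)⟧' : T.obj₁ ⟶ T.obj₂⟦(1 : ℤ)⟧) (by norm_num : (1 : ℤ) + 2 = 3) = 0 :=
        comp_vanish T.mor₂ T.mor₁ h3 w f _
      show tr (ShiftedHom.comp g (α 1 f) _) = 0
      rw [hw, hα, this, map_zero]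
    let Q : (T.obj₁ ⟶ T.obj₁⟦(1 : ℤ)⟧) →ₗ[K] (LinearMap.ker (β 2)).dualAnnihilator :=
      LinearMap.codRestrict _ (P ∘ₗ α 1) hland
    have Qinj : Function.Injective Q := by
      intro f f' hff
      have : P (α 1 f) = P (α 1 f') := congrArg Subtype.val hff
      exact α1inj (pinj 1 2 (by norm_num) this)
    have l1 := LinearMap.finrank_le_finrank_of_injective Qinj
    have l2 := Subspace.finrank_add_finrank_dualAnnihilator_eq (LinearMap.ker (β 2))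
    have l3 := LinearMap.finrank_range_add_finrank_ker (β 2)
    rw [LinearMap.range_eq_top.2 β2surj, finrank_top] at l3
    omega

end Pool.Agent.Helper6.KE
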