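import Pool.Agent.Helper6.KE.Defs
import Pool.Agent.Helper6.KE.Heart

namespace Pool.Agent.Helper6.KE

open CategoryTheory CategoryTheory.Limits CategoryTheory.Pretriangulated Module
open CategoryTheory.Triangulated
open scoped ZeroObject

universe v u w

variable {C : Type u} [Category.{v} C] [Preadditive C] [HasZeroObject C] [HasShift C ℤ]
  [∀ n : ℤ, (shiftFunctor C n).Additive] [Pretriangulated C]

lemma ku_iff (L : Fin 10 → C) (E : C) : Ku L E ↔ ∀ i n, HV (L i) E n := Iff.rfl

instance (L : Fin 10 → C) : (Ku L).IsClosedUnderIsomorphisms where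
  of_iso {X Y} e h := by
    intro i n
    exact HV.of_iso_right (h i n) e.symm

instance (L : Fin 10 → C) : (Ku L).IsStableUnderShift ℤ where
  isStableUnderShiftBy a :=
    { le_shift := by
        intro X hX i n
        exact HV.shift_right (n := a + n) (hX i (a + n)) a n rfl }

instance (L : Fin 10 → C) : (Ku L).ContainsZero where
  exists_zero := ⟨0, isZero_zero C, by
    intro i n f
    have : IsZero ((0 : C)⟦n⟧) := by
      rw [IsZero.iff_id_eq_zero, ← CategoryTheory.Functor.map_id,
        (IsZero.iff_id_eq_zero (0 : C)).1 (isZero_zero C), Functor.map_zero]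
    exact this.eq_of_tgt _ _⟩

instance (L : Fin 10 → C) : (Ku L).IsTriangulatedClosed₂ :=
  .mk' (fun T hT h₁ h₃ i n f => by
    obtain ⟨g, hg⟩ := coyo₂ T hT n f (h₃ i n _)
    rw [hg, h₁ i n g, zero_comp])

instance (L : Fin 10 → C) : (Ku L).IsTriangulated where

end Pool.Agent.Helper6.KE
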