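import Pool.Agent.Helper6.KE.Main

namespace Pool.Agent.Helper6.KE

open Module

/-- imaginary part after rotation by `-π θ`. -/
noncomputable def rotIm (θ : ℝ) (z : ℂ) : ℝ :=
  z.im * Real.cos (Real.pi * θ) - z.re * Real.sin (Real.pi * θ)

/-- real part after rotation by `-π θ`. -/
noncomputable def rotRe (θ : ℝ) (z : ℂ) : ℝ :=
  z.re * Real.cos (Real.pi * θ) + z.im * Real.sin (Real.pi * θ)

/-- the unit vector of phase `φ`. -/
noncomputable def ray (φ : ℝ) : ℂ := Complex.exp ((Real.pi * φ : ℝ) * Complex.I)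

lemma ray_re (φ : ℝ) : (ray φ).re = Real.cos (Real.pi * φ) := Complex.exp_ofReal_mul_I_re _

lemma ray_im (φ : ℝ) : (ray φ).im = Real.sin (Real.pi * φ) := Complex.exp_ofReal_mul_I_im _

lemma ray_ne (φ : ℝ) : ray φ ≠ 0 := Complex.exp_ne_zero _

lemma rotIm_add (θ : ℝ) (z w : ℂ) : rotIm θ (z + w) = rotIm θ z + rotIm θ w := by
  simp only [rotIm, Complex.add_im, Complex.add_re]; ring

lemma rotIm_smul (θ a : ℝ) (z : ℂ) : rotIm θ (a • z) = a * rotIm θ z := by
  simp only [rotIm, Complex.real_smul, Complex.re_ofReal_mul, Complex.im_ofReal_mul]; ring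

lemma rotIm_ray (θ m φ : ℝ) : rotIm θ ((m : ℂ) * ray φ) = m * Real.sin (Real.pi * (φ - θ)) := by
  have : Real.pi * (φ - θ) = Real.pi * φ - Real.pi * θ := by ring
  rw [this, Real.sin_sub]
  simp only [rotIm, Complex.re_ofReal_mul, Complex.im_ofReal_mul, ray_re, ray_im]; ring

lemma rotRe_ray (θ m φ : ℝ) : rotRe θ ((m : ℂ) * ray φ) = m * Real.cos (Real.pi * (φ - θ)) := by
  have : Real.pi * (φ - θ) = Real.pi * φ - Real.pi * θ := by ring
  rw [this, Real.cos_sub]
  simp only [rotRe, Complex.re_ofReal_mul, Complex.im_ofReal_mul, ray_re, ray_im]; ring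

lemma sin_pos' {x : ℝ} (h0 : 0 < x) (h1 : x < 1) : 0 < Real.sin (Real.pi * x) := by
  have := Real.pi_pos
  apply Real.sin_pos_of_pos_of_lt_pi
  · positivity
  · nlinarith

lemma nonneg_of_sin {x : ℝ} (h0 : -1 < x) (h : 0 ≤ Real.sin (Real.pi * x)) : 0 ≤ x := by
  by_contra hx
  push Not at hx
  have h2 : 0 < Real.sin (Real.pi * (-x)) := sin_pos' (by linarith) (by linarith)
  rw [mul_neg, Real.sin_neg] at h2
  linarith

section

variable (form : LinearMap.BilinForm ℝ (Fin 12 → ℝ)) (symm : ∀ x y, form x y = form y x)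
  (plane : ∃ P : Submodule ℝ (Fin 12 → ℝ), finrank ℝ P = 2 ∧ ∀ x ∈ P, x ≠ 0 → form x x < 0)
  (l : Fin 10 → (Fin 12 → ℝ)) (hl : ∀ i j, form (l i) (l j) = if i = j then 1 else 0)

include symm in
lemma orth_card {ι : Type*} [Fintype ι] [DecidableEq ι] (w : ι → (Fin 12 → ℝ))
    (h1 : ∀ i, form (w i) (w i) ≠ 0) (h2 : ∀ i j, i ≠ j → form (w i) (w j) = 0) :
    Fintype.card ι ≤ 12 := by
  have hlin : LinearIndependent ℝ w := by
    rw [Fintype.linearIndependent_iff]
    intro c hc i
    have h3 := congrArg (form (w i)) hc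
    simp only [map_sum, map_smul, map_zero, smul_eq_mul] at h3
    rw [Finset.sum_eq_single i (fun j _ hj => by rw [h2 i j (Ne.symm hj), mul_zero])
      (fun h => absurd (Finset.mem_univ i) h)] at h3
    exact (mul_eq_zero.1 h3).resolve_right (h1 i)
  have := hlin.fintype_card_le_finrank
  rwa [Module.finrank_fintype_fun_eq_card, Fintype.card_fin] at this

include symm plane hl in
lemma span_H (u n : Fin 12 → ℝ) (hu : ∀ i, form (l i) u = 0) (hn : ∀ i, form (l i) n = 0)
    (huu : form u u < 0) (hnn : form n n < 0) (hun : form u n = 0) (x : Fin 12 → ℝ)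
    (hx : ∀ i, form (l i) x = 0) : ∃ a b : ℝ, x = a • u + b • n := by
  classical
  refine ⟨form u x / form u u, form n x / form n n, ?_⟩
  set a := form u x / form u u with ha
  set b := form n x / form n n with hb
  set y := x - (a • u + b • n) with hy
  have hnu : form n u = 0 := by rw [symm, hun]
  have hly : ∀ i, form (l i) y = 0 := by
    intro i
    rw [hy]
    simp only [map_sub, map_add, map_smul, hx, hu, hn, smul_eq_mul]
    ring
  have huy : form u y = 0 := by
    rw [hy]
    simp only [map_sub, map_add, map_smul, hun, smul_eq_mul]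
    rw [ha, div_mul_cancel₀ _ huu.ne]
    ring
  have hny : form n y = 0 := by
    rw [hy]
    simp only [map_sub, map_add, map_smul, hnu, smul_eq_mul]
    rw [hb, div_mul_cancel₀ _ hnn.ne]
    ring
  have hy0 : y = 0 := by
    by_contra hne
    have hyy : form y y < 0 := by
      by_contra hcon
      push Not at hcon
      exact hne (neg_of_orth form symm plane l hl y hly hcon)
    have hcard := orth_card form symm (ι := Fin 10 ⊕ Fin 3) (Sum.elim l ![u, n, y])
      (by
        rintro (i | i)
        · simp [hl]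
        · fin_cases i
          · exact huu.ne
          · exact hnn.ne
          · exact hyy.ne)
      (by
        rintro (i | i) (j | j) hij
        · have : i ≠ j := fun h => hij (by rw [h])
          simp [hl, this]
        · fin_cases j
          · exact hu i
          · exact hn i
          · exact hly i
        · rw [symm]
          fin_cases i
          · exact hu j
          · exact hn j
          · exact hly j
        · fin_cases i <;> fin_cases j
          · exact absurd rfl hij
          · exact hun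
          · exact huy
          · exact hnu
          · exact absurd rfl hij
          · exact hny
          · exact (symm _ _).trans huy
          · exact (symm _ _).trans hny
          · exact absurd rfl hij)
    simp at hcard
  have : x = (a • u + b • n) + y := by rw [hy]; abel
  rw [this, hy0, add_zero]

include symm plane hl in
/-- the choice of the heart. -/
lemma la_main (Z : (Fin 12 → ℝ) →ₗ[ℝ] ℂ) (v₁ v₂ : Fin 12 → ℝ) (hv₁ : ∀ i, form (l i) v₁ = 0)
    (hv₂ : ∀ i, form (l i) v₂ = 0) (e₁ e₂ m₁ m₂ : ℝ) (hm₁ : 0 < m₁) (hm₂ : 0 < m₂)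
    (hZ₁ : Z v₁ = m₁ * ray e₁) (hZ₂ : Z v₂ = m₂ * ray e₂) (he : e₂ < e₁) (he' : e₁ < e₂ + 1)
    (hf : form v₁ v₂ ≤ 0) : ∃ θ : ℝ, θ < e₂ ∧ e₁ ≤ θ + 1 ∧
      ∀ x : Fin 12 → ℝ, (∀ i, form (l i) x = 0) → ∀ φ m : ℝ, 0 < m → θ < φ → φ ≤ θ + 1 →
        Z x = m * ray φ → (form v₂ x < 0 ∨ (form v₂ x = 0 ∧ form v₁ x < 0)) := by
  have hpi := Real.pi_pos
  -- `form v₂ v₂ < 0`
  have hv₂0 : v₂ ≠ 0 := by
    rintro rfl
    rw [map_zero] at hZ₂
    have : (m₂ : ℂ) ≠ 0 := by exact_mod_cast hm₂.ne'
    exact mul_ne_zero this (ray_ne _) hZ₂.symm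
  have hneg : ∀ x : Fin 12 → ℝ, (∀ i, form (l i) x = 0) → x ≠ 0 → form x x < 0 := by
    intro x hx hx0
    by_contra hcon
    push Not at hcon
    exact hx0 (neg_of_orth form symm plane l hl x hx hcon)
  have h22 := hneg v₂ hv₂ hv₂0
  set α := form v₁ v₂ / form v₂ v₂ with hα
  have hα0 : 0 ≤ α := div_nonneg_of_nonpos hf h22.le
  set n := v₁ - α • v₂ with hn
  have hln : ∀ i, form (l i) n = 0 := by
    intro i
    rw [hn]
    simp only [map_sub, map_smul, hv₁, hv₂, smul_eq_mul]
    ring
  have h2n : form v₂ n = 0 := by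
    rw [hn]
    simp only [map_sub, map_smul, smul_eq_mul]
    rw [hα, symm v₂ v₁, div_mul_cancel₀ _ h22.ne]
    ring
  have hv1 : v₁ = n + α • v₂ := by rw [hn]; abel
  have h1n : form v₁ n = form n n := by
    conv_lhs => rw [hv1]
    simp only [map_add, map_smul, LinearMap.add_apply, LinearMap.smul_apply, h2n, smul_eq_mul]
    ring
  have hZn : Z n = Z v₁ + (-α) • Z v₂ := by
    rw [hn, map_sub, map_smul]
    module
  -- imaginary part of `Z n` rotated by `e₂`
  have hs1 : 0 < Real.sin (Real.pi * (e₁ - e₂)) := sin_pos' (by linarith) (by linarith)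
  have him2 : rotIm e₂ (Z n) = m₁ * Real.sin (Real.pi * (e₁ - e₂)) := by
    rw [hZn, rotIm_add, rotIm_smul, hZ₁, hZ₂, rotIm_ray, rotIm_ray]
    simp
  have him2pos : 0 < rotIm e₂ (Z n) := by rw [him2]; positivity
  have hn0 : n ≠ 0 := by
    intro h0
    rw [h0, map_zero] at him2pos
    simp [rotIm] at him2pos
  have hnn := hneg n hln hn0
  -- the phase of `Z n`
  obtain ⟨θ, r, hr, hZr, hθ1, hθ2⟩ : ∃ θ r : ℝ, 0 < r ∧ Z n = r * ray (θ + 1) ∧ e₂ < θ + 1 ∧
      θ + 1 < e₂ + 1 := by
    set w : ℂ := Z n * ray (-e₂) with hw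
    have hwim : w.im = rotIm e₂ (Z n) := by
      rw [hw, Complex.mul_im, ray_re, ray_im, rotIm, mul_neg, Real.cos_neg, Real.sin_neg]
      ring
    have hwpos : 0 < w.im := by rw [hwim]; exact him2pos
    have hw0 : w ≠ 0 := by
      intro h0
      rw [h0] at hwpos
      simp at hwpos
    have ha1 : 0 < Complex.arg w := by
      rcases (Complex.arg_nonneg_iff.2 hwpos.le).lt_or_eq with h | h
      · exact h
      · exfalso
        have h1 := (Complex.arg_eq_zero_iff.1 h.symm).2
        linarith
    have ha2 : Complex.arg w < Real.pi := by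
      rcases (Complex.arg_le_pi w).lt_or_eq with h | h
      · exact h
      · exfalso
        have h1 := (Complex.arg_eq_pi_iff.1 h).2
        linarith
    refine ⟨e₂ + Complex.arg w / Real.pi - 1, ‖w‖, norm_pos_iff.2 hw0, ?_, ?_, ?_⟩
    · have h1 : Z n = w * ray e₂ := by
        rw [hw, mul_assoc]
        have : ray (-e₂) * ray e₂ = 1 := by
          unfold ray
          rw [← Complex.exp_add]
          have : ((Real.pi * -e₂ : ℝ) : ℂ) * Complex.I + ((Real.pi * e₂ : ℝ) : ℂ) * Complex.I = 0 := by
            push_cast; ring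
          rw [this, Complex.exp_zero]
        rw [this, mul_one]
      have h2 : ray (e₂ + Complex.arg w / Real.pi - 1 + 1) =
          Complex.exp (Complex.arg w * Complex.I) * ray e₂ := by
        unfold ray
        rw [← Complex.exp_add]
        congr 1
        have h3 : Real.pi * (e₂ + Complex.arg w / Real.pi - 1 + 1) =
            Complex.arg w + Real.pi * e₂ := by
          field_simp
          ring
        rw [h3]
        push_cast
        ring
      rw [h1, h2, ← mul_assoc, Complex.norm_mul_exp_arg_mul_I]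
    · have : 0 < Complex.arg w / Real.pi := by positivity
      linarith
    · have : Complex.arg w / Real.pi < 1 := by rw [div_lt_one hpi]; exact ha2
      linarith
  refine ⟨θ, by linarith, ?_, ?_⟩
  · -- `e₁ ≤ θ + 1`
    have h1 : rotIm e₁ (Z n) = α * m₂ * Real.sin (Real.pi * (e₁ - e₂)) := by
      rw [hZn, rotIm_add, rotIm_smul, hZ₁, hZ₂, rotIm_ray, rotIm_ray]
      have : Real.pi * (e₂ - e₁) = -(Real.pi * (e₁ - e₂)) := by ring
      rw [this, Real.sin_neg]
      simp
      ring
    have h2 : 0 ≤ rotIm e₁ (Z n) := by rw [h1]; positivity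
    rw [hZr, rotIm_ray] at h2
    have h3 : 0 ≤ Real.sin (Real.pi * (θ + 1 - e₁)) := by
      by_contra hcon
      push Not at hcon
      have := mul_neg_of_pos_of_neg hr hcon
      linarith
    have := nonneg_of_sin (by linarith) h3
    linarith
  · intro x hx φ m hm hφ1 hφ2 hZx
    obtain ⟨a, b, hab⟩ := span_H form symm plane l hl v₂ n hv₂ hln h22 hnn h2n x hx
    have hZx' : Z x = a • Z v₂ + b • Z n := by rw [hab, map_add, map_smul, map_smul]
    have him : m * Real.sin (Real.pi * (φ - θ)) = a * (m₂ * Real.sin (Real.pi * (e₂ - θ))) := by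
      rw [← rotIm_ray, ← hZx, hZx', rotIm_add, rotIm_smul, rotIm_smul, hZ₂, hZr, rotIm_ray,
        rotIm_ray]
      have : Real.pi * (θ + 1 - θ) = Real.pi := by ring
      rw [this, Real.sin_pi]
      ring
    have hs2 : 0 < Real.sin (Real.pi * (e₂ - θ)) := sin_pos' (by linarith) (by linarith)
    have h2x : form v₂ x = a * form v₂ v₂ := by
      rw [hab]
      simp only [map_add, map_smul, smul_eq_mul, h2n]
      ring
    rcases hφ2.lt_or_eq with h | h
    · left
      have hs3 : 0 < Real.sin (Real.pi * (φ - θ)) := sin_pos' (by linarith) (by linarith)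
      have hapos : 0 < a := by
        by_contra hcon
        push Not at hcon
        have h3 : 0 < m * Real.sin (Real.pi * (φ - θ)) := by positivity
        rw [him] at h3
        have h4 : a * (m₂ * Real.sin (Real.pi * (e₂ - θ))) ≤ 0 :=
          mul_nonpos_of_nonpos_of_nonneg hcon (by positivity)
        linarith
      rw [h2x]
      exact mul_neg_of_pos_of_neg hapos h22
    · right
      have h3 : Real.pi * (φ - θ) = Real.pi := by rw [h]; ring
      rw [h3, Real.sin_pi, mul_zero] at him
      have ha0 : a = 0 := by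
        rcases mul_eq_zero.1 him.symm with h4 | h4
        · exact h4
        · exfalso
          have : 0 < m₂ * Real.sin (Real.pi * (e₂ - θ)) := by positivity
          linarith
      refine ⟨by rw [h2x, ha0, zero_mul], ?_⟩
      have hbr : b * r = m := by
        have h5 : (m : ℂ) * ray (θ + 1) = ((b * r : ℝ) : ℂ) * ray (θ + 1) := by
          rw [← h, ← hZx, hZx', ha0, zero_smul, zero_add, hZr, h, Complex.real_smul]
          push_cast
          ring
        have h6 := mul_right_cancel₀ (ray_ne _) h5
        exact_mod_cast h6.symm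
      have hb : 0 < b := by
        by_contra hcon
        push Not at hcon
        have := mul_nonpos_of_nonpos_of_nonneg hcon hr.le
        linarith
      have : form v₁ x = b * form n n := by
        rw [hab, ha0, zero_smul, zero_add, map_smul, h1n, smul_eq_mul]
      rw [this]
      exact mul_neg_of_pos_of_neg hb hnn

end

end Pool.Agent.Helper6.KE
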