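import Pool.Agent.Helper6.KE.Pair

namespace Pool.Agent.Helper6.KE

open CategoryTheory CategoryTheory.Limits CategoryTheory.Pretriangulated Module
open CategoryTheory.Triangulated
open scoped ZeroObject

universe v u w

variable {C : Type u} [Category.{v} C] [Preadditive C] [HasZeroObject C] [HasShift C ℤ]
  [∀ n : ℤ, (shiftFunctor C n).Additive] [Pretriangulated C]
  {K : Type w} [Field K] [Linear K C] 

section sub

variable (P : ObjectProperty C) [P.IsTriangulated]

/-- Hom spaces with shifts in the full subcategory and in the ambient category. -/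
noncomputable def homEqv (X Y : P.FullSubcategory) (n : ℤ) :
    (X ⟶ Y⟦n⟧) ≃ₗ[K] (X.obj ⟶ Y.obj⟦n⟧) :=
  (LinearEquiv.ofBijective (P.ι.mapLinearMap K : (X ⟶ Y⟦n⟧) →ₗ[K] _)
    ⟨P.ι.map_injective, P.ι.map_surjective⟩).trans
    (Linear.homCongr K (Iso.refl _) ((P.ι.commShiftIso n).app Y))

lemma homEqv_apply (X Y : P.FullSubcategory) (n : ℤ) (f : X ⟶ Y⟦n⟧) :
    homEqv (K := K) P X Y n f = ShiftedHom.map f P.ι := by
  simp [homEqv, ShiftedHom.map, Linear.homCongr_apply]
  rfl

lemma sub_shift_linear [∀ n : ℤ, (shiftFunctor C n).Linear K] (n : ℤ) :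
    (shiftFunctor P.FullSubcategory n).Linear K where
  map_smul {X Y} f r := by
    apply P.ι.map_injective
    rw [← cancel_mono ((P.ι.commShiftIso n).hom.app Y)]
    have h1 := P.ι.commShiftIso_hom_naturality (r • f) n
    have h2 := P.ι.commShiftIso_hom_naturality f n
    rw [h1, P.ι.map_smul, Functor.map_smul, P.ι.map_smul, Linear.smul_comp, h2, Linear.comp_smul]

lemma sub_finite (D : EnriquesType K C) (X Y : P.FullSubcategory) :
    FiniteDimensional K (X ⟶ Y) := by
  have : FiniteDimensional K (P.ι.obj X ⟶ P.ι.obj Y) := D.homFinite X.obj Y.obj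
  exact FiniteDimensional.of_injective (P.ι.mapLinearMap K : (X ⟶ Y) →ₗ[K] _)
    P.ι.map_injective

end sub

/-- `S` is a 3-Calabi-Yau object of the Kuznetsov component. -/
noncomputable def cy3Ku (D : EnriquesType K C) (L : Fin 10 → C) (T : SphTri D (L 0))
    (hS : Ku L T.S) : CY3 K (⟨T.S, hS⟩ : (Ku L).FullSubcategory) where
  tr := (trS D T) ∘ₗ (homEqv (K := K) (Ku L) ⟨T.S, hS⟩ ⟨T.S, hS⟩ 3).toLinearMap
  left := by
    intro E a b h f hf
    have hf' : homEqv (K := K) (Ku L) E ⟨T.S, hS⟩ a f ≠ 0 := by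
      intro h0
      exact hf ((LinearEquiv.map_eq_zero_iff _).1 h0)
    obtain ⟨g', hg'⟩ := pair_left D T (fun n => E.property 0 n) a b h _ hf'
    obtain ⟨g, rfl⟩ := (homEqv (K := K) (Ku L) ⟨T.S, hS⟩ E b).surjective g'
    refine ⟨g, ?_⟩
    change trS D T (homEqv (K := K) (Ku L) ⟨T.S, hS⟩ ⟨T.S, hS⟩ 3 (ShiftedHom.comp g f h)) ≠ 0
    rw [homEqv_apply, ShiftedHom.map_comp, ← homEqv_apply (K := K), ← homEqv_apply (K := K)]
    exact hg'
  right := by
    intro E a b h g hg
    have hg' : homEqv (K := K) (Ku L) ⟨T.S, hS⟩ E b g ≠ 0 := by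
      intro h0
      exact hg ((LinearEquiv.map_eq_zero_iff _).1 h0)
    obtain ⟨f', hf'⟩ := pair_right D T (fun n => E.property 0 n) a b h _ hg'
    obtain ⟨f, rfl⟩ := (homEqv (K := K) (Ku L) E ⟨T.S, hS⟩ a).surjective f'
    refine ⟨f, ?_⟩
    change trS D T (homEqv (K := K) (Ku L) ⟨T.S, hS⟩ ⟨T.S, hS⟩ 3 (ShiftedHom.comp g f h)) ≠ 0
    rw [homEqv_apply, ShiftedHom.map_comp, ← homEqv_apply (K := K), ← homEqv_apply (K := K)]
    exact hf'

lemma S_mem_Ku (D : EnriquesType K C) (L : Fin 10 → C) (hL : IsExcOrth K L)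
    (T : SphTri D (L 0)) : Ku L T.S := by
  intro i n
  by_cases hi : i = 0
  · subst hi
    exact hv_L_S D T (hL.one 0) (fun n hn => hL.exc 0 n hn) n
  · exact hv_S_of_orth D T (fun n => hL.orth 0 i (Ne.symm hi) n) (fun n => hL.orth i 0 hi n) n

/-- linear algebra: the signature argument. -/
lemma neg_of_orth (form : LinearMap.BilinForm ℝ (Fin 12 → ℝ)) (symm : ∀ x y, form x y = form y x)
    (plane : ∃ P : Submodule ℝ (Fin 12 → ℝ), finrank ℝ P = 2 ∧ ∀ x ∈ P, x ≠ 0 → form x x < 0)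
    (l : Fin 10 → (Fin 12 → ℝ)) (hl : ∀ i j, form (l i) (l j) = if i = j then 1 else 0)
    (x : Fin 12 → ℝ) (hx : ∀ i, form (l i) x = 0) (hxx : 0 ≤ form x x) : x = 0 := by
  classical
  by_contra hne
  obtain ⟨P, hP2, hPneg⟩ := plane
  let w : Option (Fin 10) → (Fin 12 → ℝ) := fun o => o.elim x l
  have hlin : LinearIndependent ℝ w := by
    rw [Fintype.linearIndependent_iff]
    intro c hc
    rw [Fintype.sum_option] at hc
    simp only [w, Option.elim] at hc
    have hci : ∀ i, c (some i) = 0 := by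
      intro i
      have := congrArg (form (l i)) hc
      simp only [map_add, map_smul, map_sum, map_zero, hl, hx, smul_eq_mul] at this
      simpa using this
    intro o
    cases o with
    | none =>
      have h0 : c none • x = 0 := by simpa [hci] using hc
      exact (smul_eq_zero.1 h0).resolve_right hne
    | some i => exact hci i
  let U := Submodule.span ℝ (Set.range w)
  have hU : finrank ℝ U = 11 := by
    rw [finrank_span_eq_card hlin]; simp
  have hint : ∃ y ∈ U ⊓ P, y ≠ 0 := by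
    by_contra hcon
    push Not at hcon
    have hbot : U ⊓ P = ⊥ := by
      rw [eq_bot_iff]; intro y hy; exact (Submodule.mem_bot ℝ).2 (hcon y hy)
    have h1 := Submodule.finrank_sup_add_finrank_inf_eq U P
    rw [hbot, finrank_bot, hU, hP2] at h1
    have h2 := Submodule.finrank_le (U ⊔ P)
    rw [Module.finrank_fintype_fun_eq_card, Fintype.card_fin] at h2
    omega
  obtain ⟨y, hy, hy0⟩ := hint
  have hneg := hPneg y hy.2 hy0
  obtain ⟨c, hc⟩ := (Submodule.mem_span_range_iff_exists_fun ℝ).1 hy.1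
  rw [Fintype.sum_option] at hc
  simp only [w, Option.elim] at hc
  have hyy : form y y = c none * c none * form x x + ∑ i, c (some i) * c (some i) := by
    have hxl : ∀ i, form x (l i) = 0 := fun i => by rw [symm, hx]
    rw [← hc]
    simp only [map_add, map_smul, map_sum, LinearMap.add_apply, LinearMap.smul_apply,
      LinearMap.sum_apply, smul_eq_mul, hl, hx, hxl]
    simp
    ring
  have hpos : 0 ≤ form y y := by
    rw [hyy]
    have h1 : 0 ≤ c none * c none * form x x := mul_nonneg (mul_self_nonneg _) hxx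
    have h2 : 0 ≤ ∑ i, c (some i) * c (some i) := Finset.sum_nonneg (fun i _ => mul_self_nonneg _)
    linarith
  linarith

/-- Euler form of the exceptional collection. -/
lemma chi_exc (L : Fin 10 → C) (hL : IsExcOrth K L) (i j : Fin 10) :
    chi K (L i) (L j) = if i = j then 1 else 0 := by
  split_ifs with h
  · subst h
    unfold chi
    rw [finsum_eq_single _ 0]
    · have e : (L i ⟶ L i) ≃ₗ[K] (L i ⟶ (L i)⟦(0 : ℤ)⟧) :=
        Linear.homCongr K (Iso.refl _) ((shiftFunctorZero C ℤ).symm.app (L i))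
      rw [← e.finrank_eq, hL.one i]
      simp
    · intro n hn
      have hs : Subsingleton (L i ⟶ (L i)⟦n⟧) :=
        ⟨fun a b => by rw [hL.exc i n hn a, hL.exc i n hn b]⟩
      rw [finrank_zero_of_subsingleton]; simp
  · unfold chi
    have : ∀ n : ℤ, ((n.negOnePow : ℤˣ) : ℤ) * (finrank K (L i ⟶ (L j)⟦n⟧) : ℤ) = 0 := by
      intro n
      have hs : Subsingleton (L i ⟶ (L j)⟦n⟧) :=
        ⟨fun a b => by rw [hL.orth i j h n a, hL.orth i j h n b]⟩
      rw [finrank_zero_of_subsingleton]; simp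
    simp only [this, finsum_zero]

lemma chi_ku (L : Fin 10 → C) {E : C} (hE : Ku L E) (i : Fin 10) : chi K (L i) E = 0 := by
  unfold chi
  have : ∀ n : ℤ, ((n.negOnePow : ℤˣ) : ℤ) * (finrank K (L i ⟶ E⟦n⟧) : ℤ) = 0 := by
    intro n
    have hs : Subsingleton (L i ⟶ E⟦n⟧) := ⟨fun a b => by rw [hE i n a, hE i n b]⟩
    rw [finrank_zero_of_subsingleton]; simp
  simp only [this, finsum_zero]

/-- `chi(E, E)` for an object with self-extensions only in degrees `0, 1, 2, 3`. -/
lemma chi_eq_four (E : C) (h : ∀ n : ℤ, (n < 0 ∨ 4 ≤ n) → HV E E n) :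
    chi K E E = (finrank K (E ⟶ E⟦(0 : ℤ)⟧) : ℤ) - finrank K (E ⟶ E⟦(1 : ℤ)⟧)
      + finrank K (E ⟶ E⟦(2 : ℤ)⟧) - finrank K (E ⟶ E⟦(3 : ℤ)⟧) := by
  unfold chi
  rw [finsum_eq_sum_of_support_subset (s := {0, 1, 2, 3})]
  · rw [Finset.sum_insert (by decide), Finset.sum_insert (by decide),
      Finset.sum_insert (by decide), Finset.sum_singleton]
    have e1 : (((0 : ℤ).negOnePow : ℤˣ) : ℤ) = 1 := by simp
    have e2 : (((1 : ℤ).negOnePow : ℤˣ) : ℤ) = -1 := by simp
    have e3 : (((2 : ℤ).negOnePow : ℤˣ) : ℤ) = 1 := by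
      rw [Int.negOnePow_even 2 (by decide)]; rfl
    have e4 : (((3 : ℤ).negOnePow : ℤˣ) : ℤ) = -1 := by
      rw [Int.negOnePow_odd 3 (by decide)]; rfl
    rw [e1, e2, e3, e4]
    ring
  · intro n hn
    by_contra hcon
    have hn2 : n < 0 ∨ 4 ≤ n := by
      by_contra h3
      apply hcon
      have : n = 0 ∨ n = 1 ∨ n = 2 ∨ n = 3 := by omega
      simpa using this
    apply hn
    have hs : Subsingleton (E ⟶ E⟦n⟧) := ⟨fun a b => by rw [h n hn2 a, h n hn2 b]⟩
    simp [finrank_zero_of_subsingleton]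

/-- Main theorem. -/
theorem main [∀ n : ℤ, (shiftFunctor C n).Linear K] (D : EnriquesType K C) (L : Fin 10 → C)
    (hL : IsExcOrth K L) (t : TStructure (Ku L).FullSubcategory) (hb : ∀ E, t.bounded E)
    (hnum : ∀ E : (Ku L).FullSubcategory, t.heart E →
      (∀ F : (Ku L).FullSubcategory, chi K E.obj F.obj = 0) → IsZero E) :
    ∃ E F : (Ku L).FullSubcategory, t.heart E ∧ t.heart F ∧
      ∃ k : ℤ, 4 ≤ k ∧ ∃ f : E ⟶ F⟦k⟧, f ≠ 0 := by
  by_contra hcon
  have hd : ∀ E F : (Ku L).FullSubcategory, t.heart E → t.heart F → ∀ k : ℤ, 4 ≤ k →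
      HV E F k := by
    intro E F hE hF k hk f
    by_contra hf
    exact hcon ⟨E, F, hE, hF, k, hk, f, hf⟩
  haveI := fun n => sub_shift_linear (K := K) (Ku L) n
  haveI := fun X Y => sub_finite (K := K) (Ku L) D X Y
  obtain ⟨T⟩ := exists_sphTri D (hL.one 0)
  have hS := S_mem_Ku D L hL T
  have hSz : ¬ IsZero (⟨T.S, hS⟩ : (Ku L).FullSubcategory) := by
    intro hz
    apply S_ne_zero D T (hL.one 0) (fun n hn => hL.exc 0 n hn)
    rw [IsZero.iff_id_eq_zero] at hz ⊢
    have := congrArg (fun f => (Ku L).ι.map f) hz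
    simpa using this
  obtain ⟨E, hE, hEz, d3, d12⟩ := heart_dims K t hd hb _ hSz (cy3Ku D L T hS)
  have hfr : ∀ n : ℤ, finrank K (E ⟶ E⟦n⟧) = finrank K (E.obj ⟶ E.obj⟦n⟧) :=
    fun n => (homEqv (K := K) (Ku L) E E n).finrank_eq
  have hv : ∀ n : ℤ, (n < 0 ∨ 4 ≤ n) → HV E.obj E.obj n := by
    intro n hn
    have h1 : HV E E n := by
      rcases hn with hn | hn
      · intro f
        have hE' := (t.mem_heart_iff E).1 hE
        haveI := hE'.1
        haveI := hE'.2
        have := t.isGE_shift E 0 n (-n) (by omega)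
        exact t.zero f 0 (-n) (by omega)
      · exact hd E E hE hE n hn
    intro f
    obtain ⟨g, rfl⟩ := (homEqv (K := K) (Ku L) E E n).surjective f
    rw [h1 g, map_zero]
  have hchi : (0 : ℤ) ≤ chi K E.obj E.obj := by
    rw [chi_eq_four E.obj hv, ← hfr, ← hfr, ← hfr, ← hfr, d3]
    have : (finrank K (E ⟶ E⟦(1 : ℤ)⟧) : ℤ) ≤ finrank K (E ⟶ E⟦(2 : ℤ)⟧) := by exact_mod_cast d12
    linarith
  have hcls : D.cls E.obj = 0 := by
    refine neg_of_orth D.form D.form_symm D.plane (fun i => D.cls (L i)) ?_ (D.cls E.obj) ?_ ?_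
    · intro i j
      rw [D.form_cls, chi_exc L hL]
      split_ifs <;> simp
    · intro i
      rw [D.form_cls, chi_ku L E.property i]; simp
    · rw [D.form_cls]; exact_mod_cast hchi
  apply hEz
  apply hnum E hE
  intro F
  have := D.form_cls E.obj F.obj
  rw [hcls, map_zero, LinearMap.zero_apply] at this
  exact_mod_cast this.symm

end Pool.Agent.Helper6.KE
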