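import Pool.Agent.Helper6.KE.Sph

namespace Pool.Agent.Helper6.KE

open CategoryTheory CategoryTheory.Limits CategoryTheory.Pretriangulated Module
open CategoryTheory.Triangulated
open scoped ZeroObject

universe v u w

variable {C : Type u} [Category.{v} C] [Preadditive C] [HasZeroObject C] [HasShift C ℤ]
  [∀ n : ℤ, (shiftFunctor C n).Additive] [Pretriangulated C]
  {K : Type w} [Field K] [Linear K C] 

section

variable (D : EnriquesType K C) {L : C} (T : SphTri D L)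

/-- `W` of `(W L)[1]`, shifted by two, is `L[3]`. -/
noncomputable def theta (D : EnriquesType K C) (L : C) :
    (D.W.obj ((D.W.obj L)⟦(1 : ℤ)⟧))⟦(2 : ℤ)⟧ ≅ L⟦(3 : ℤ)⟧ :=
  letI := D.commShift
  (shiftFunctor C (2 : ℤ)).mapIso
      ((D.W.commShiftIso (1 : ℤ)).app (D.W.obj L) ≪≫
        (shiftFunctor C (1 : ℤ)).mapIso (D.sq.app L)) ≪≫
    ((shiftFunctorAdd' C (1 : ℤ) 2 3 (by norm_num)).app L).symm

/-- `L` is isomorphic to `L[4]` if `S` is zero. -/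
lemma S_ne_zero (h1 : finrank K (L ⟶ L) = 1) (hexc : ∀ n : ℤ, n ≠ 0 → HV L L n) :
    ¬ IsZero T.S := by
  intro hz
  have hiso : IsIso T.δ := (Triangle.isZero₂_iff_isIso₃ _ T.mem).1 hz
  letI := D.commShift
  -- L ≅ (W L)[2]
  let e : L ≅ (D.W.obj L)⟦(1 : ℤ)⟧⟦(1 : ℤ)⟧ := asIso T.δ
  let e2 : L ≅ (D.W.obj L)⟦(2 : ℤ)⟧ :=
    e ≪≫ ((shiftFunctorAdd' C (1 : ℤ) 1 2 (by norm_num)).app (D.W.obj L)).symm
  let e3 : D.W.obj L ≅ L⟦(2 : ℤ)⟧ :=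
    D.W.mapIso e2 ≪≫ (D.W.commShiftIso (2 : ℤ)).app (D.W.obj L) ≪≫
      (shiftFunctor C (2 : ℤ)).mapIso (D.sq.app L)
  let e4 : L ≅ L⟦(4 : ℤ)⟧ :=
    e2 ≪≫ (shiftFunctor C (2 : ℤ)).mapIso e3 ≪≫
      ((shiftFunctorAdd' C (2 : ℤ) 2 4 (by norm_num)).app L).symm
  have h0 : e4.hom = 0 := hexc 4 (by norm_num) e4.hom
  have hid : (𝟙 L : L ⟶ L) = 0 := by rw [← e4.hom_inv_id, h0, zero_comp]
  have : ∀ f : L ⟶ L, f = 0 := fun f => by rw [← Category.comp_id f, hid, comp_zero]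
  have hs : Subsingleton (L ⟶ L) := ⟨fun a b => by rw [this a, this b]⟩
  rw [finrank_zero_of_subsingleton] at h1
  exact absurd h1 (by norm_num)

/-- The functional on `Hom(S, S[3])`. -/
noncomputable def trS : (T.S ⟶ T.S⟦(3 : ℤ)⟧) →ₗ[K] K :=
  (D.tr ((D.W.obj L)⟦(1 : ℤ)⟧)) ∘ₗ
    (Linear.leftComp K _ T.j) ∘ₗ (Linear.rightComp K _ (T.p⟦(3 : ℤ)⟧' ≫ (theta D L).inv))

lemma trS_apply (u : T.S ⟶ T.S⟦(3 : ℤ)⟧) :
    trS D T u = D.tr _ (T.j ≫ u ≫ T.p⟦(3 : ℤ)⟧' ≫ (theta D L).inv) := rfl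

lemma pair_left {E : C} (hE : ∀ n, HV L E n) (a b : ℤ) (h : a + b = 3) (f : E ⟶ T.S⟦a⟧)
    (hf : f ≠ 0) : ∃ g : T.S ⟶ E⟦b⟧, trS D T (ShiftedHom.comp g f h) ≠ 0 := by
  let F : E⟦b⟧ ⟶ T.S⟦(3 : ℤ)⟧ := f⟦b⟧' ≫ (shiftFunctorAdd' C a b 3 h).inv.app T.S
  have hF : F ≠ 0 := by
    intro h0
    apply hf
    apply (shiftFunctor C b).map_injective
    rw [Functor.map_zero, ← cancel_mono ((shiftFunctorAdd' C a b 3 h).inv.app T.S), zero_comp]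
    exact h0
  have hy : F ≫ T.p⟦(3 : ℤ)⟧' ≠ 0 := by
    intro h0
    obtain ⟨g', hg'⟩ := coyo₂ _ T.mem 3 F h0
    have hg0 : g' = 0 := (hv_A D hE (3 - b)).to_shift b 3 (by ring) g'
    apply hF
    rw [hg', hg0]
    exact zero_comp
  have hy2 : F ≫ T.p⟦(3 : ℤ)⟧' ≫ (theta D L).inv ≠ 0 := by
    intro h0
    apply hy
    rw [← cancel_mono (theta D L).inv, zero_comp, Category.assoc, h0]
  obtain ⟨h', hh'⟩ := D.right _ hy2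
  have hsurj : ∃ g : T.S ⟶ E⟦b⟧, h' = T.j ≫ g :=
    yo₁' _ T.mem b (b + 1) rfl (hE (b + 1)) h'
  obtain ⟨g, hg⟩ := hsurj
  refine ⟨g, ?_⟩
  rw [trS_apply]
  have : T.j ≫ ShiftedHom.comp g f h ≫ T.p⟦(3 : ℤ)⟧' ≫ (theta D L).inv =
      h' ≫ F ≫ T.p⟦(3 : ℤ)⟧' ≫ (theta D L).inv := by
    rw [hg]
    simp only [ShiftedHom.comp, F, Category.assoc]
  rw [this]
  exact hh'

lemma pair_right {E : C} (hE : ∀ n, HV L E n) (a b : ℤ) (h : a + b = 3) (g : T.S ⟶ E⟦b⟧)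
    (hg : g ≠ 0) : ∃ f : E ⟶ T.S⟦a⟧, trS D T (ShiftedHom.comp g f h) ≠ 0 := by
  have hjg : T.j ≫ g ≠ 0 := by
    intro h0
    obtain ⟨w, hw⟩ := Triangle.yoneda_exact₂ _ T.mem g h0
    have hw0 : w = 0 := hE b w
    apply hg
    rw [hw, hw0]
    exact comp_zero
  obtain ⟨y, hy⟩ := D.left _ hjg
  -- lift `y ≫ theta` through `p[3]`
  have hlift : ∃ z : E⟦b⟧ ⟶ T.S⟦(3 : ℤ)⟧, y ≫ (theta D L).hom = z ≫ T.p⟦(3 : ℤ)⟧' := by
    refine coyo₂ _ (rot_of_distTriang _ T.mem) 3 (y ≫ (theta D L).hom) ?_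
    have hv : HV (E⟦b⟧) ((D.W.obj L)⟦(1 : ℤ)⟧⟦(1 : ℤ)⟧) 3 :=
      ((hv_A D hE (3 - b + 1)).shift_right 1 (3 - b) (by ring)).to_shift b 3 (by ring)
    exact hv _
  obtain ⟨z, hz⟩ := hlift
  obtain ⟨f, hf⟩ := (shiftFunctor C b).map_surjective
    (z ≫ (shiftFunctorAdd' C a b 3 h).hom.app T.S)
  refine ⟨f, ?_⟩
  rw [trS_apply]
  have h1 : ShiftedHom.comp g f h = g ≫ z := by
    simp only [ShiftedHom.comp]
    rw [hf, Category.assoc, Iso.hom_inv_id_app]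
    simp
  have : T.j ≫ ShiftedHom.comp g f h ≫ T.p⟦(3 : ℤ)⟧' ≫ (theta D L).inv = (T.j ≫ g) ≫ y := by
    rw [h1, Category.assoc, Category.assoc, ← Category.assoc z, ← hz, Category.assoc,
      Iso.hom_inv_id, Category.comp_id]
  rw [this]
  exact hy

end

end Pool.Agent.Helper6.KE
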