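import Pool.Agent.Helper6.KE.Stab

namespace Pool.Agent.Helper6.KE

open CategoryTheory CategoryTheory.Limits CategoryTheory.Pretriangulated Module
open CategoryTheory.Triangulated
open scoped ZeroObject

universe v u w

variable {C : Type u} [Category.{v} C] [Preadditive C] [HasZeroObject C] [HasShift C ℤ]
  [∀ n : ℤ, (shiftFunctor C n).Additive] [Pretriangulated C]
  {K : Type w} [Field K] [Linear K C]

/-- `heart_hd` combined with `main`: the t-structure form of the obstruction. -/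
theorem no_test [∀ n : ℤ, (shiftFunctor C n).Linear K] (D : EnriquesType K C) (L : Fin 10 → C)
    (hL : IsExcOrth K L) (t : TStructure (Ku L).FullSubcategory) (hb : ∀ E, t.bounded E)
    (htest : ∀ U : (Ku L).FullSubcategory, t.heart U → ¬ IsZero U →
      ∃ (E : (Ku L).FullSubcategory) (hW : Ku L (D.W.obj E.obj)), t.heart E ∧
        t.heart (⟨D.W.obj E.obj, hW⟩ : (Ku L).FullSubcategory) ∧ chi K E.obj U.obj < 0) :
    False := by
  obtain ⟨E, F, hE, hF, k, hk, f, hf⟩ := main D L hL t hb (by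
    intro U hU hchi
    by_contra hz
    obtain ⟨E, hW, hE, hWE, hneg⟩ := htest U hU hz
    have h1 := hchi E
    have h2 : chi K E.obj U.obj = chi K U.obj E.obj := by
      have h3 := D.form_symm (D.cls E.obj) (D.cls U.obj)
      rw [D.form_cls, D.form_cls] at h3
      exact_mod_cast h3
    rw [h2, h1] at hneg
    exact lt_irrefl _ hneg)
  exact hf (heart_hd D L hL t hb htest E F hE hF k hk f)

/-- `E` is semistable of phase `e`, and so is `W E`, which lies in `Ku`. -/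
structure Test (D : EnriquesType K C) (L : Fin 10 → C) (σ : PreStab D L)
    (E : (Ku L).FullSubcategory) (e : ℝ) : Prop where
  ne : ¬ IsZero E
  mem : σ.P e E
  mem' : ∃ (E' : (Ku L).FullSubcategory), Nonempty (E'.obj ≅ D.W.obj E.obj) ∧ σ.P e E'

lemma Test.shift {D : EnriquesType K C} {L : Fin 10 → C} {σ : PreStab D L}
    {E : (Ku L).FullSubcategory} {e : ℝ} (h : Test D L σ E e) (n : ℤ) :
    Test D L σ (E⟦n⟧) (e + n) := by
  obtain ⟨E', ⟨i⟩, hE'⟩ := h.mem'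
  refine ⟨?_, σ.shift_int n h.mem, ⟨E'⟦n⟧, ⟨?_⟩, σ.shift_int n hE'⟩⟩
  · intro hz
    apply h.ne
    rw [IsZero.iff_id_eq_zero] at hz ⊢
    apply (shiftFunctor (Ku L).FullSubcategory n).map_injective
    rw [CategoryTheory.Functor.map_id, hz, Functor.map_zero]
  · letI := D.commShift
    exact ((Ku L).ι.commShiftIso n).app E' ≪≫ (shiftFunctor C n).mapIso i ≪≫
      ((D.W.commShiftIso n).app E.obj).symm ≪≫
      D.W.mapIso (((Ku L).ι.commShiftIso n).app E).symm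

section

variable [IsTriangulated C] [∀ n : ℤ, (shiftFunctor C n).Linear K] (D : EnriquesType K C)
  (hadd : ClsAdditive D) (L : Fin 10 → C) (hL : IsExcOrth K L) (σ : PreStab D L)

include hadd in
lemma cls_sub_additive (T : Triangle (Ku L).FullSubcategory) (hT : T ∈ distTriang _) :
    D.cls T.obj₂.obj = D.cls T.obj₁.obj + D.cls T.obj₃.obj :=
  hadd _ ((Ku L).ι.map_distinguished T hT)

include hadd hL in
lemma core {E₁ E₂ : (Ku L).FullSubcategory} {e₁ e₂ : ℝ} (h₁ : Test D L σ E₁ e₁)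
    (h₂ : Test D L σ E₂ e₂) (he : e₂ < e₁) (he' : e₁ < e₂ + 1)
    (hf : D.form (D.cls E₁.obj) (D.cls E₂.obj) ≤ 0) : False := by
  obtain ⟨m₁, hm₁, hZ₁⟩ := σ.central e₁ E₁ h₁.mem h₁.ne
  obtain ⟨m₂, hm₂, hZ₂⟩ := σ.central e₂ E₂ h₂.mem h₂.ne
  obtain ⟨θ, hθ2, hθ1, hθ⟩ := la_main D.form D.form_symm D.plane (fun i => D.cls (L i))
    (cls_L D L hL) σ.Z (D.cls E₁.obj) (D.cls E₂.obj) (cls_mem D L E₁.property)
    (cls_mem D L E₂.property) e₁ e₂ m₁ m₂ hm₁ hm₂ hZ₁ hZ₂ he he' hf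
  have hU : IsUpperSet (Set.Ioi θ) := isUpperSet_Ioi θ
  -- the heart contains the test objects
  have hmem : ∀ {E : (Ku L).FullSubcategory} {e : ℝ}, θ < e → e ≤ θ + 1 → Test D L σ E e →
      ∃ hW : Ku L (D.W.obj E.obj), (σ.toSlicing.t _ hU).heart E ∧
        (σ.toSlicing.t _ hU).heart (⟨D.W.obj E.obj, hW⟩ : (Ku L).FullSubcategory) := by
    intro E e h3 h4 h5
    obtain ⟨E', ⟨i⟩, hE'⟩ := h5.mem'
    have hW : Ku L (D.W.obj E.obj) := (Ku L).prop_of_iso i E'.property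
    have h6 : e - 1 ∉ Set.Ioi θ := by
      intro h
      have : θ < e - 1 := h
      linarith
    refine ⟨hW, σ.toSlicing.heart_of_mem _ hU h5.mem h3 h6, ?_⟩
    have h7 := σ.toSlicing.heart_of_mem _ hU hE' h3 h6
    have j : E' ≅ (⟨D.W.obj E.obj, hW⟩ : (Ku L).FullSubcategory) := (Ku L).ι.preimageIso i
    exact (σ.toSlicing.t _ hU).heart.prop_of_iso j h7
  obtain ⟨hW₁, h11, h12⟩ := hmem (by linarith) (by linarith) h₁
  obtain ⟨hW₂, h21, h22⟩ := hmem hθ2 (by linarith) h₂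
  refine no_test D L hL (σ.toSlicing.t _ hU) (σ.toSlicing.t_bounded _ hU ?_ ?_) ?_
  · intro x
    obtain ⟨n, hn⟩ := exists_nat_gt (θ - x)
    refine ⟨n, ?_⟩
    change θ < x + ((n : ℤ) : ℝ)
    push_cast
    linarith
  · intro x
    obtain ⟨n, hn⟩ := exists_nat_gt (x - θ)
    refine ⟨-n, ?_⟩
    intro h
    have h3 : θ < x + ((-(n : ℤ) : ℤ) : ℝ) := h
    push_cast at h3
    linarith
  · intro U hUh hUz
    obtain ⟨l, hl, hlθ⟩ := σ.toSlicing.heart_hn _ hU hUh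
    have key := hl.additive (fun X => D.cls X.obj) (cls_sub_additive D hadd L)
      (fun x => D.form (D.cls E₂.obj) x < 0 ∨
        (D.form (D.cls E₂.obj) x = 0 ∧ D.form (D.cls E₁.obj) x < 0)) (by
        rintro x y (hx | ⟨hx1, hx2⟩) (hy | ⟨hy1, hy2⟩)
        · left; rw [map_add]; linarith
        · left; rw [map_add, hy1]; linarith
        · left; rw [map_add, hx1]; linarith
        · right
          rw [map_add, map_add]
          exact ⟨by linarith, by linarith⟩) (by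
        intro φ hφ F hF
        by_cases hFz : IsZero F
        · exact Or.inl hFz
        · right
          obtain ⟨m, hm, hZ⟩ := σ.central φ F hF hFz
          obtain ⟨h3, h4⟩ := hlθ φ hφ
          have h4' : φ ≤ θ + 1 := by
            by_contra hcon
            push Not at hcon
            exact h4 (by change θ < φ - 1; linarith)
          exact hθ _ (cls_mem D L F.property) φ m hm h3 h4' hZ)
    rcases key with hz | h | ⟨_, h⟩
    · exact absurd hz hUz
    · refine ⟨E₂, hW₂, h21, h22, ?_⟩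
      rw [D.form_cls] at h
      exact_mod_cast h
    · refine ⟨E₁, hW₁, h11, h12, ?_⟩
      rw [D.form_cls] at h
      exact_mod_cast h

include hadd hL in
lemma parallel_test {E₁ E₂ : (Ku L).FullSubcategory} {e₁ e₂ : ℝ} (h₁ : Test D L σ E₁ e₁)
    (h₂ : Test D L σ E₂ e₂) : ∃ n : ℤ, e₁ - e₂ = n := by
  by_contra hcon
  push Not at hcon
  set n := ⌊e₁ - e₂⌋ with hn
  have h1 : (n : ℝ) ≤ e₁ - e₂ := Int.floor_le _
  have h2 : e₁ - e₂ < n + 1 := Int.lt_floor_add_one _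
  have h3 : (n : ℝ) < e₁ - e₂ := lt_of_le_of_ne h1 (fun h => hcon n h.symm)
  have h1' := h₁.shift (-n)
  have e : e₁ + ((-n : ℤ) : ℝ) = e₁ - n := by push_cast; ring
  rw [e] at h1'
  by_cases hf : D.form (D.cls (E₁⟦-n⟧).obj) (D.cls E₂.obj) ≤ 0
  · exact core D hadd L hL σ h1' h₂ (by linarith) (by linarith) hf
  · push Not at hf
    have h2' := h₂.shift 1
    have e' : e₂ + ((1 : ℤ) : ℝ) = e₂ + 1 := by push_cast; ring
    rw [e'] at h2'
    refine core D hadd L hL σ h2' h1' (by linarith) (by linarith) ?_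
    have h4 : D.cls (E₂⟦(1 : ℤ)⟧).obj = - D.cls E₂.obj := by
      rw [← cls_shift_one D hadd]
      exact cls_iso D hadd (((Ku L).ι.commShiftIso (1 : ℤ)).app E₂)
    rw [h4, map_neg, LinearMap.neg_apply, D.form_symm]
    linarith

include hadd hL in
/-- Main theorem on stability conditions. -/
theorem parallel (E₁ E₂ : (Ku L).FullSubcategory) (hW₁ : Ku L (D.W.obj E₁.obj))
    (hW₂ : Ku L (D.W.obj E₂.obj)) (e₁ e₁' e₂ e₂' : ℝ) (h₁ : σ.P e₁ E₁)
    (h₁' : σ.P e₁' ⟨D.W.obj E₁.obj, hW₁⟩) (h₂ : σ.P e₂ E₂)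
    (h₂' : σ.P e₂' ⟨D.W.obj E₂.obj, hW₂⟩) (hz₁ : ¬ IsZero E₁) (hz₂ : ¬ IsZero E₂) :
    e₁' = e₁ ∧ e₂' = e₂ ∧ ∃ n : ℤ, e₁ - e₂ = n := by
  have key : ∀ (E : (Ku L).FullSubcategory) (hW : Ku L (D.W.obj E.obj)) (e e' : ℝ),
      σ.P e E → σ.P e' ⟨D.W.obj E.obj, hW⟩ → ¬ IsZero E → e' = e := by
    intro E hW e e' h h' hz
    have h1 := phase_le D hadd L hL σ E ⟨D.W.obj E.obj, hW⟩ (Iso.refl _) h h' hz
    have hz' : ¬ IsZero (⟨D.W.obj E.obj, hW⟩ : (Ku L).FullSubcategory) := by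
      intro h0
      apply hz
      rw [IsZero.iff_id_eq_zero] at h0 ⊢
      have h3 : 𝟙 (D.W.obj E.obj) = 0 := congrArg (fun f => (Ku L).ι.map f) h0
      have h4 : 𝟙 E.obj = 0 := by
        by_contra hne
        obtain ⟨g, hg⟩ := D.left (𝟙 E.obj) hne
        have h5 : IsZero ((D.W.obj E.obj)⟦(2 : ℤ)⟧) :=
          Functor.map_isZero _ ((IsZero.iff_id_eq_zero _).2 h3)
        apply hg
        rw [h5.eq_of_tgt (𝟙 E.obj ≫ g) 0, map_zero]
      apply (Ku L).ι.map_injective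
      exact h4
    have h2 := phase_le D hadd L hL σ ⟨D.W.obj E.obj, hW⟩ E (D.sq.app E.obj).symm h' h hz'
    exact le_antisymm h2 h1
  have k1 := key E₁ hW₁ e₁ e₁' h₁ h₁' hz₁
  have k2 := key E₂ hW₂ e₂ e₂' h₂ h₂' hz₂
  subst k1 k2
  exact ⟨rfl, rfl, parallel_test D hadd L hL σ ⟨hz₁, h₁, ⟨_, ⟨Iso.refl _⟩, h₁'⟩⟩
    ⟨hz₂, h₂, ⟨_, ⟨Iso.refl _⟩, h₂'⟩⟩⟩

end

end Pool.Agent.Helper6.KE
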