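import Pool.Agent.Helper6.KE.Main

namespace Pool.Agent.Helper6.KE

open CategoryTheory CategoryTheory.Limits CategoryTheory.Pretriangulated Module
open CategoryTheory.Triangulated
open scoped ZeroObject

universe v u w

variable {C : Type u} [Category.{v} C] [Preadditive C] [HasZeroObject C] [HasShift C ℤ]
  [∀ n : ℤ, (shiftFunctor C n).Additive] [Pretriangulated C]
  {K : Type w} [Field K] [Linear K C]

/-- converse of `hv_W`. -/
lemma hv_W' (D : EnriquesType K C) {X E : C} (n : ℤ) (h : HV E (D.W.obj X) n) :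
    HV X E (2 - n) := by
  intro f
  by_contra hf
  obtain ⟨g, hg⟩ := D.left f hf
  apply hg
  have : g = 0 := h.to_shift (2 - n) 2 (by ring) g
  rw [this, comp_zero, map_zero]

lemma hv_W_iff (D : EnriquesType K C) {X E : C} (n m : ℤ) (h : n + m = 2) :
    HV E (D.W.obj X) n ↔ HV X E m := by
  obtain rfl : m = 2 - n := by omega
  exact ⟨hv_W' D n, hv_W D n⟩

lemma finrank_WL (D : EnriquesType K C) {L : C} (h1 : finrank K (L ⟶ L) = 1) :
    finrank K (L ⟶ (D.W.obj L)⟦(2 : ℤ)⟧) ≤ 1 := by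
  have := D.homFinite L L
  have := D.homFinite L ((D.W.obj L)⟦(2 : ℤ)⟧)
  let φ : (L ⟶ (D.W.obj L)⟦(2 : ℤ)⟧) →ₗ[K] Module.Dual K (L ⟶ L) :=
    (LinearMap.mk₂ K (fun (g : L ⟶ (D.W.obj L)⟦(2 : ℤ)⟧) (f : L ⟶ L) => D.tr L (f ≫ g))
      (fun g g' f => by simp) (fun c g f => by simp)
      (fun g f f' => by simp) (fun c g f => by simp))
  have hφ : Function.Injective φ := by
    rw [← LinearMap.ker_eq_bot, LinearMap.ker_eq_bot']
    intro g hg
    by_contra hne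
    obtain ⟨f, hf⟩ := D.right g hne
    exact hf (LinearMap.congr_fun hg f)
  have := LinearMap.finrank_le_finrank_of_injective hφ
  rwa [Subspace.dual_finrank_eq, h1] at this

/-- the number of maps from the exceptional collection. -/
noncomputable def sz (K : Type w) [Field K] [Linear K C] (L : Fin 10 → C) (Y : C) : ℕ :=
  ∑ᶠ p : Fin 10 × ℤ, finrank K (L p.1 ⟶ Y⟦p.2⟧)

lemma sz_finite (D : EnriquesType K C) (L : Fin 10 → C) (Y : C) :
    (Function.support fun p : Fin 10 × ℤ => finrank K (L p.1 ⟶ Y⟦p.2⟧)).Finite := by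
  have h : (⋃ i : Fin 10, (fun n : ℤ => (i, n)) '' {n : ℤ | ∃ f : L i ⟶ Y⟦n⟧, f ≠ 0}).Finite :=
    Set.finite_iUnion fun i => (D.extFinite (L i) Y).image _
  refine h.subset ?_
  rintro ⟨i, n⟩ hp
  refine Set.mem_iUnion.2 ⟨i, n, ?_, rfl⟩
  by_contra hcon
  apply hp
  have hs : Subsingleton (L i ⟶ Y⟦n⟧) := by
    refine ⟨fun a b => ?_⟩
    have ha : a = 0 := by by_contra h; exact hcon ⟨a, h⟩
    have hb : b = 0 := by by_contra h; exact hcon ⟨b, h⟩
    rw [ha, hb]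
  exact finrank_zero_of_subsingleton

section step

variable [∀ n : ℤ, (shiftFunctor C n).Linear K]

lemma hom_inj (D : EnriquesType K C) (L : Fin 10 → C) (hL : IsExcOrth K L) (Y : C) (i : Fin 10)
    (f : L i ⟶ Y) (g : Y ⟶ (D.W.obj (L i))⟦(2 : ℤ)⟧) (hfg : f ≫ g ≠ 0)
    {Z : C} (a : Z ⟶ Y) (h : (D.W.obj (L i))⟦(2 : ℤ)⟧ ⟶ Z⟦(1 : ℤ)⟧)
    (mem : Triangle.mk a g h ∈ distTriang C) (j : Fin 10) (m : ℤ) (φ : L j ⟶ Z⟦m⟧)
    (hφ : φ ≫ a⟦m⟧' = 0) : φ = 0 := by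
  by_cases hjm : j = i ∧ m = 1
  · obtain ⟨rfl, rfl⟩ := hjm
    obtain ⟨ψ, hψ⟩ := Triangle.coyoneda_exact₁ _ mem φ hφ
    change L j ⟶ (D.W.obj (L j))⟦(2 : ℤ)⟧ at ψ
    change φ = ψ ≫ h at hψ
    have h1 := finrank_WL D (hL.one j)
    have := D.homFinite (L j) ((D.W.obj (L j))⟦(2 : ℤ)⟧)
    have h2 : finrank K (L j ⟶ (D.W.obj (L j))⟦(2 : ℤ)⟧) = 1 := by
      apply le_antisymm h1
      rw [Nat.one_le_iff_ne_zero]
      intro h0
      rw [Module.finrank_eq_zero_iff_of_free] at h0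
      exact hfg (Subsingleton.elim _ _)
    obtain ⟨c, hc⟩ := finrank_one_span h2 hfg ψ
    have h3 : g ≫ h = 0 := comp_distTriang_mor_zero₂₃ _ mem
    rw [hψ, ← hc, Linear.smul_comp, Category.assoc, h3, comp_zero, smul_zero]
  · refine coyo₁ _ mem m (m - 1) (by ring) ?_ φ hφ
    change HV (L j) ((D.W.obj (L i))⟦(2 : ℤ)⟧) (m - 1)
    refine (hv_W D (m + 1) ?_).shift_right 2 (m - 1) (by ring)
    by_cases hij : i = j
    · subst hij
      refine hL.exc i _ ?_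
      intro hm
      exact hjm ⟨rfl, by omega⟩
    · exact hL.orth i j hij _

lemma sz_lt (D : EnriquesType K C) (L : Fin 10 → C) (hL : IsExcOrth K L) (Y : C) (i : Fin 10)
    (n : ℤ) (f : L i ⟶ Y⟦n⟧) (g : Y⟦n⟧ ⟶ (D.W.obj (L i))⟦(2 : ℤ)⟧) (hfg : f ≫ g ≠ 0)
    {Z : C} (a : Z ⟶ Y⟦n⟧) (h : (D.W.obj (L i))⟦(2 : ℤ)⟧ ⟶ Z⟦(1 : ℤ)⟧)
    (mem : Triangle.mk a g h ∈ distTriang C) : sz K L Z < sz K L Y := by
  classical
  have hfin := fun X Y => D.homFinite X Y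
  -- the maps
  let e : ∀ p : Fin 10 × ℤ, (L p.1 ⟶ Y⟦n⟧⟦p.2⟧) ≃ₗ[K] (L p.1 ⟶ Y⟦n + p.2⟧) := fun p =>
    Linear.homCongr K (Iso.refl _) ((shiftFunctorAdd' C n p.2 (n + p.2) rfl).symm.app Y)
  let A : ∀ p : Fin 10 × ℤ, (L p.1 ⟶ Z⟦p.2⟧) →ₗ[K] (L p.1 ⟶ Y⟦n⟧⟦p.2⟧) := fun p =>
    Linear.rightComp K (L p.1) (a⟦p.2⟧')
  have hA : ∀ p, Function.Injective (A p) := by
    intro p
    rw [← LinearMap.ker_eq_bot, LinearMap.ker_eq_bot']
    intro φ hφ
    exact hom_inj D L hL (Y⟦n⟧) i f g hfg a h mem p.1 p.2 φ hφ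
  have hle : ∀ p : Fin 10 × ℤ, finrank K (L p.1 ⟶ Z⟦p.2⟧) ≤ finrank K (L p.1 ⟶ Y⟦n + p.2⟧) := by
    intro p
    rw [← (e p).finrank_eq]
    exact LinearMap.finrank_le_finrank_of_injective (hA p)
  have hlt : finrank K (L i ⟶ Z⟦(0 : ℤ)⟧) < finrank K (L i ⟶ Y⟦n + 0⟧) := by
    rw [← (e (i, 0)).finrank_eq]
    have h1 := LinearMap.finrank_range_of_inj (hA (i, 0))
    change finrank K (LinearMap.range (A (i, 0))) = finrank K (L i ⟶ Z⟦(0 : ℤ)⟧) at h1
    rw [← h1]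
    apply Submodule.finrank_lt
    intro htop
    have h2 : f ≫ (shiftFunctorZero C ℤ).inv.app (Y⟦n⟧) ∈ LinearMap.range (A (i, 0)) := by
      rw [htop]; trivial
    obtain ⟨φ, hφ⟩ := h2
    change φ ≫ a⟦(0 : ℤ)⟧' = f ≫ (shiftFunctorZero C ℤ).inv.app (Y⟦n⟧) at hφ
    have h3 : a ≫ g = 0 := comp_distTriang_mor_zero₁₂ _ mem
    have h4 : (φ ≫ a⟦(0 : ℤ)⟧') ≫ g⟦(0 : ℤ)⟧' = 0 := by
      rw [Category.assoc, ← Functor.map_comp, h3, Functor.map_zero, comp_zero]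
    rw [hφ, Category.assoc] at h4
    have h5 := (shiftFunctorZero C ℤ).inv.naturality g
    change g ≫ (shiftFunctorZero C ℤ).inv.app _ =
      (shiftFunctorZero C ℤ).inv.app _ ≫ g⟦(0 : ℤ)⟧' at h5
    rw [← h5, ← Category.assoc] at h4
    apply hfg
    rw [← cancel_mono ((shiftFunctorZero C ℤ).inv.app _), h4, zero_comp]
  have hshift : sz K L Y = ∑ᶠ p : Fin 10 × ℤ, finrank K (L p.1 ⟶ Y⟦n + p.2⟧) := by
    unfold sz
    let E : Fin 10 × ℤ ≃ Fin 10 × ℤ := Equiv.prodCongr (Equiv.refl _) (Equiv.addLeft n)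
    exact (finsum_comp_equiv E (f := fun p : Fin 10 × ℤ => finrank K (L p.1 ⟶ Y⟦p.2⟧))).symm
  have hfinY : (Function.support fun p : Fin 10 × ℤ => finrank K (L p.1 ⟶ Y⟦n + p.2⟧)).Finite := by
    refine Set.Finite.subset (((sz_finite D L Y).image fun p => (p.1, p.2 - n))) ?_
    rintro ⟨j, m⟩ hp
    exact ⟨(j, n + m), hp, by simp⟩
  rw [hshift]
  unfold sz
  let s := (sz_finite D L Z).toFinset ∪ hfinY.toFinset
  rw [finsum_eq_sum_of_support_subset (s := s) _ (by simp [s]),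
    finsum_eq_sum_of_support_subset (s := s) _ (by simp [s])]
  refine Finset.sum_lt_sum (fun p _ => hle p) ⟨(i, 0), ?_, hlt⟩
  simp only [s, Finset.mem_union, Set.Finite.mem_toFinset, Function.mem_support]
  right
  omega

omit [∀ n : ℤ, (shiftFunctor C n).Linear K] in
lemma hv_WL (D : EnriquesType K C) (L : Fin 10 → C) {X : C} (hX : Ku L X) (i : Fin 10) (m : ℤ) :
    HV X ((D.W.obj (L i))⟦(2 : ℤ)⟧) m :=
  (hv_W D (m + 2) (hX i _)).shift_right 2 m (by ring)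

/-- the right adjoint projection to the Kuznetsov component, on the level of vanishing of Homs. -/
theorem exists_proj (D : EnriquesType K C) (L : Fin 10 → C) (hL : IsExcOrth K L) (N : ℕ) :
    ∀ Y : C, sz K L Y ≤ N → ∃ Y' : C, Ku L Y' ∧ ∀ X : C, Ku L X → ∀ n : ℤ,
      (HV X Y' n ↔ HV X Y n) := by
  induction N using Nat.strong_induction_on with
  | _ N ih =>
    intro Y hY
    by_cases hK : Ku L Y
    · exact ⟨Y, hK, fun X hX n => Iff.rfl⟩
    have hK' : ∃ (i : Fin 10) (n : ℤ), ∃ f : L i ⟶ Y⟦n⟧, f ≠ 0 := by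
      by_contra hcon
      push Not at hcon
      exact hK hcon
    obtain ⟨i, n, f, hf⟩ := hK'
    obtain ⟨g, hg⟩ := D.left f hf
    have hfg : f ≫ g ≠ 0 := by
      intro h0
      rw [h0, map_zero] at hg
      exact hg rfl
    obtain ⟨Z, a, h, mem⟩ := distinguished_cocone_triangle₁ g
    have hlt := sz_lt D L hL Y i n f g hfg a h mem
    obtain ⟨Z', hZ', hh⟩ := ih (sz K L Z) (by omega) Z le_rfl
    refine ⟨Z'⟦-n⟧, (Ku L).le_shift (-n) _ hZ', ?_⟩
    intro X hX m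
    have h1 : HV X (Z'⟦-n⟧) m ↔ HV X Z' (m - n) := by
      constructor
      · exact fun h => h.of_shift_right (-n) (m - n) (by ring)
      · exact fun h => h.shift_right (-n) m (by ring)
    have h2 : HV X Z (m - n) ↔ HV X (Y⟦n⟧) (m - n) := by
      constructor
      · intro h φ
        obtain ⟨ψ, hψ⟩ := coyo₂ _ mem (m - n) φ (hv_WL D L hX i _ _)
        rw [hψ]
        have h0 : ψ = 0 := h ψ
        rw [h0]
        exact zero_comp
      · intro h φ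
        exact coyo₁ _ mem (m - n) (m - n - 1) (by ring) (hv_WL D L hX i _) φ (h _)
    have h3 : HV X (Y⟦n⟧) (m - n) ↔ HV X Y m := by
      constructor
      · exact fun h => h.of_shift_right n m (by ring)
      · exact fun h => h.shift_right n (m - n) (by ring)
    rw [h1, hh X hX, h2, h3]

end step

end Pool.Agent.Helper6.KE
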