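import Pool.Agent.Helper6.KE.Basic

namespace Pool.Agent.Helper6.KE

open CategoryTheory CategoryTheory.Limits CategoryTheory.Pretriangulated
open CategoryTheory.Triangulated
open scoped ZeroObject

universe v u

section

variable {T : Type u} [Category.{v} T] [Preadditive T] [HasZeroObject T] [HasShift T ℤ]
  [∀ n : ℤ, (shiftFunctor T n).Additive] [Pretriangulated T]

/-- `HN P l X`: the object `X` has a Harder-Narasimhan filtration with semistable factors of the
phases listed in `l`; here `P φ` is the class of semistable objects of phase `φ`, the list `l` is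
increasing, and its first entry is the phase of the last quotient. -/
inductive HN (P : ℝ → ObjectProperty T) : List ℝ → T → Prop
  | zero {X : T} : IsZero X → HN P [] X
  | step {X Y F : T} {φ : ℝ} {l : List ℝ} (f : Y ⟶ X) (g : X ⟶ F) (h : F ⟶ Y⟦(1 : ℤ)⟧) :
      Triangle.mk f g h ∈ distTriang T → HN P l Y → P φ F → (∀ ψ ∈ l, φ < ψ) → HN P (φ :: l) X

/-- the extension closure. -/
inductive Fil (Q : ObjectProperty T) : T → Prop
  | zero {X : T} : IsZero X → Fil Q X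
  | step {X Y F : T} (f : Y ⟶ X) (g : X ⟶ F) (h : F ⟶ Y⟦(1 : ℤ)⟧) :
      Triangle.mk f g h ∈ distTriang T → Fil Q Y → Q F → Fil Q X

end

/-- A slicing (Bridgeland): classes `P φ` of objects (the semistable objects of phase `φ`)
for all real `φ`, closed under isomorphisms, with `P (φ + 1) = P φ [1]`, with
`Hom(A, B) = 0` for `A ∈ P φ`, `B ∈ P ψ` and `φ > ψ`, and such that every object has a
Harder-Narasimhan filtration. -/
structure Slicing (T : Type u) [Category.{v} T] [Preadditive T] [HasZeroObject T] [HasShift T ℤ]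
    [∀ n : ℤ, (shiftFunctor T n).Additive] [Pretriangulated T] where
  P : ℝ → ObjectProperty T
  iso : ∀ φ, (P φ).IsClosedUnderIsomorphisms
  shift : ∀ (φ : ℝ) (X : T), P φ X ↔ P (φ + 1) (X⟦(1 : ℤ)⟧)
  hom_zero : ∀ {φ ψ : ℝ} {X Y : T}, ψ < φ → P φ X → P ψ Y → ∀ f : X ⟶ Y, f = 0
  hn : ∀ X : T, ∃ l, HN P l X

variable {T : Type u} [Category.{v} T] [Preadditive T] [HasZeroObject T] [HasShift T ℤ]
  [∀ n : ℤ, (shiftFunctor T n).Additive] [Pretriangulated T]

lemma dist_of_iso₂ {X X' Y Z : T} (e : X ≅ X') (f : Y ⟶ X) (g : X ⟶ Z) (h : Z ⟶ Y⟦(1 : ℤ)⟧)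
    (mem : Triangle.mk f g h ∈ distTriang T) :
    Triangle.mk (f ≫ e.hom) (e.inv ≫ g) h ∈ distTriang T := by
  refine isomorphic_distinguished _ mem _ ?_
  refine Triangle.isoMk _ _ (Iso.refl _) e.symm (Iso.refl _) ?_ ?_ ?_
  · change (f ≫ e.hom) ≫ e.inv = 𝟙 _ ≫ f
    simp
  · change (e.inv ≫ g) ≫ 𝟙 _ = e.inv ≫ g
    simp
  · change h ≫ (𝟙 _)⟦(1 : ℤ)⟧' = 𝟙 _ ≫ h
    simp

lemma Fil.of_iso {Q : ObjectProperty T} {X Y : T} (e : X ≅ Y) (h : Fil Q X) : Fil Q Y := by
  cases h with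
  | zero h => exact .zero (h.of_iso e.symm)
  | step f g k mem h1 h2 =>
    exact .step (f ≫ e.hom) (e.inv ≫ g) k (dist_of_iso₂ e f g k mem) h1 h2

instance (Q : ObjectProperty T) : ObjectProperty.IsClosedUnderIsomorphisms (Fil Q) where
  of_iso e h := h.of_iso e

lemma Fil.single {Q : ObjectProperty T} {X : T} (h : Q X) : Fil Q X :=
  .step (0 : (0 : T) ⟶ X) (𝟙 X) 0 (contractible_distinguished₁ X) (.zero (isZero_zero T)) h

lemma Fil.mono {Q Q' : ObjectProperty T} (hQ : ∀ X, Q X → Q' X) {X : T} (h : Fil Q X) :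
    Fil Q' X := by
  induction h with
  | zero h => exact .zero h
  | step f g k mem h1 h2 ih => exact .step f g k mem ih (hQ _ h2)

lemma Fil.shift {Q Q' : ObjectProperty T} (n : ℤ) (hQ : ∀ X, Q X → Q' (X⟦n⟧)) {X : T}
    (h : Fil Q X) : Fil Q' (X⟦n⟧) := by
  induction h with
  | zero h => exact .zero (Functor.map_isZero _ h)
  | step f g k mem h1 h2 ih =>
    exact .step _ _ _ (Triangle.shift_distinguished _ mem n) ih (hQ _ h2)

lemma HN.fil {P : ℝ → ObjectProperty T} {l : List ℝ} {X : T} (h : HN P l X) (S : Set ℝ)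
    (hS : ∀ φ ∈ l, φ ∈ S) : Fil (fun Y => ∃ φ ∈ S, P φ Y) X := by
  induction h with
  | zero h => exact .zero h
  | step f g k mem h1 h2 h3 ih =>
    exact .step f g k mem (ih fun φ hφ => hS φ (List.mem_cons_of_mem _ hφ))
      ⟨_, hS _ List.mem_cons_self, h2⟩

lemma HN.of_iso {P : ℝ → ObjectProperty T} {l : List ℝ} {X Y : T} (e : X ≅ Y)
    (h : HN P l X) : HN P l Y := by
  cases h with
  | zero h => exact .zero (h.of_iso e.symm)
  | step f g k mem h1 h2 h3 =>
    exact .step (f ≫ e.hom) (e.inv ≫ g) k (dist_of_iso₂ e f g k mem) h1 h2 h3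

/-- no maps from `Fil Q` to `Fil Q'`. -/
lemma Fil.hom_zero {Q Q' : ObjectProperty T} (hQ : ∀ X Y, Q X → Q' Y → ∀ f : X ⟶ Y, f = 0)
    {X Y : T} (hX : Fil Q X) (hY : Fil Q' Y) : ∀ f : X ⟶ Y, f = 0 := by
  have h1 : ∀ {X Y : T}, Fil Q X → Q' Y → ∀ f : X ⟶ Y, f = 0 := by
    intro X Y hX hY
    induction hX with
    | zero h => exact fun f => h.eq_of_src _ _
    | step f g k mem h1 h2 ih =>
      intro φ
      obtain ⟨ψ, hψ⟩ := Triangle.yoneda_exact₂ _ mem φ (ih _)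
      rw [hψ, hQ _ _ h2 hY ψ]
      exact comp_zero
  induction hY with
  | zero h => exact fun f => h.eq_of_tgt _ _
  | step f g k mem h2 h3 ih =>
    intro φ
    obtain ⟨ψ, hψ⟩ := Triangle.coyoneda_exact₂ _ mem φ (h1 hX h3 _)
    rw [hψ, ih ψ]
    exact zero_comp

variable [IsTriangulated T]

lemma Fil.ext {Q : ObjectProperty T} {Z : T} (hZ : Fil Q Z) :
    ∀ {X Y : T} (f : Y ⟶ X) (g : X ⟶ Z) (h : Z ⟶ Y⟦(1 : ℤ)⟧),
      Triangle.mk f g h ∈ distTriang T → Fil Q Y → Fil Q X := by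
  induction hZ with
  | zero hz =>
    intro X Y f g h mem hY
    have : IsIso f := (Triangle.isZero₃_iff_isIso₁ _ mem).1 hz
    exact hY.of_iso (asIso f)
  | @step Z Z' F a b c mem' h1 h2 ih =>
    intro X Y f g h mem hY
    have hX : ObjectProperty.extensionProduct (fun W => W = Y)
        (ObjectProperty.extensionProduct (fun W => W = Z') (fun W => W = F)) X :=
      ⟨_, _, f, g, h, mem, rfl, ⟨_, _, a, b, c, mem', rfl, rfl⟩⟩
    rw [← ObjectProperty.extensionProduct_assoc] at hX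
    obtain ⟨V, F', f1, g1, h1', mem1, ⟨Y', Z'', f2, g2, h2', mem2, rfl, rfl⟩, rfl⟩ := hX
    exact .step f1 g1 h1' mem1 (ih f2 g2 h2' mem2 hY) h2

omit [IsTriangulated T] in
lemma Slicing.shift_int (σ : Slicing T) (n : ℤ) : ∀ {φ : ℝ} {X : T}, σ.P φ X →
    σ.P (φ + n) (X⟦n⟧) := by
  have := σ.iso
  induction n using Int.induction_on with
  | zero =>
    intro φ X h
    have := (σ.P φ).prop_of_iso ((shiftFunctorZero T ℤ).symm.app X) h
    simpa using this
  | succ n ih =>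
    intro φ X h
    have h1 := (σ.shift _ _).1 (ih h)
    have h2 := (σ.P _).prop_of_iso ((shiftFunctorAdd' T (n : ℤ) 1 (n + 1) rfl).symm.app X) h1
    have e : φ + ((n : ℤ) : ℝ) + 1 = φ + (((n : ℤ) + 1 : ℤ) : ℝ) := by push_cast; ring
    rw [e] at h2
    exact h2
  | pred n ih =>
    intro φ X h
    have h1 := ih h
    have h2 := (σ.P _).prop_of_iso
      ((shiftFunctorAdd' T (-(n : ℤ) - 1) 1 (-(n : ℤ)) (by ring)).app X) h1
    have e : φ + ((-(n : ℤ) : ℤ) : ℝ) = φ + ((-(n : ℤ) - 1 : ℤ) : ℝ) + 1 := by push_cast; ring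
    rw [e] at h2
    exact (σ.shift _ _).2 h2

lemma HN.exists_triangle {P : ℝ → ObjectProperty T} {U : Set ℝ} (hU : IsUpperSet U)
    {l : List ℝ} {X : T} (h : HN P l X) :
    ∃ (A B : T) (_ : Fil (fun Y => ∃ φ ∈ U, P φ Y) A) (_ : Fil (fun Y => ∃ φ ∈ Uᶜ, P φ Y) B)
      (f : A ⟶ X) (g : X ⟶ B) (h : B ⟶ A⟦(1 : ℤ)⟧), Triangle.mk f g h ∈ distTriang T := by
  induction h with
  | @zero X hz =>
    exact ⟨X, 0, .zero hz, .zero (isZero_zero T), _, _, _, contractible_distinguished X⟩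
  | @step X Y F φ l f g k mem h1 h2 h3 ih =>
    by_cases hφ : φ ∈ U
    · refine ⟨X, 0, ?_, .zero (isZero_zero T), _, _, _, contractible_distinguished X⟩
      refine .step f g k mem (h1.fil U fun ψ hψ => hU (h3 ψ hψ).le hφ) ⟨φ, hφ, h2⟩
    · obtain ⟨A, B', hA, hB', a, b, c, mem'⟩ := ih
      have hX : ObjectProperty.extensionProduct
          (ObjectProperty.extensionProduct (fun W => W = A) (fun W => W = B'))
          (fun W => W = F) X :=
        ⟨_, _, f, g, k, mem, ⟨_, _, a, b, c, mem', rfl, rfl⟩, rfl⟩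
      rw [ObjectProperty.extensionProduct_assoc] at hX
      obtain ⟨A1, B, f1, g1, h1', mem1, rfl, ⟨B2, F', f2, g2, h2', mem2, rfl, rfl⟩⟩ := hX
      exact ⟨_, B, hA, .step f2 g2 h2' mem2 hB' ⟨φ, hφ, h2⟩, f1, g1, h1', mem1⟩

/-- the t-structure of a slicing and an upper set `U` of phases. -/
noncomputable def Slicing.t (σ : Slicing T) (U : Set ℝ) (hU : IsUpperSet U) : TStructure T where
  le n := Fil (fun X => ∃ φ : ℝ, φ + n ∈ U ∧ σ.P φ X)
  ge n := Fil (fun X => ∃ φ : ℝ, φ + n - 1 ∉ U ∧ σ.P φ X)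
  le_shift := by
    intro n a n' h X hX
    refine Fil.shift a ?_ hX
    rintro Y ⟨φ, h1, h2⟩
    refine ⟨φ + a, ?_, σ.shift_int a h2⟩
    rw [← h] at h1
    push_cast at h1
    rwa [add_assoc]
  ge_shift := by
    intro n a n' h X hX
    refine Fil.shift a ?_ hX
    rintro Y ⟨φ, h1, h2⟩
    refine ⟨φ + a, ?_, σ.shift_int a h2⟩
    rw [← h] at h1
    push_cast at h1
    rwa [add_assoc]
  zero' := by
    intro X Y f hX hY
    refine Fil.hom_zero ?_ hX hY f
    rintro A B ⟨φ, h1, h2⟩ ⟨ψ, h3, h4⟩ f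
    refine σ.hom_zero ?_ h2 h4 f
    by_contra hcon
    push Not at hcon
    apply h3
    refine hU ?_ h1
    push_cast
    linarith
  le_zero_le := by
    intro X hX
    refine Fil.mono ?_ hX
    rintro A ⟨φ, h1, h2⟩
    refine ⟨φ, hU ?_ h1, h2⟩
    push_cast
    linarith
  ge_one_le := by
    intro X hX
    refine Fil.mono ?_ hX
    rintro A ⟨φ, h1, h2⟩
    refine ⟨φ, fun hc => h1 (hU ?_ hc), h2⟩
    push_cast
    linarith
  exists_triangle_zero_one := by
    intro X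
    obtain ⟨l, hl⟩ := σ.hn X
    obtain ⟨A, B, hA, hB, f, g, h, mem⟩ := hl.exists_triangle hU
    refine ⟨A, B, Fil.mono ?_ hA, Fil.mono ?_ hB, f, g, h, mem⟩
    · rintro Y ⟨φ, h1, h2⟩
      exact ⟨φ, by simpa using h1, h2⟩
    · rintro Y ⟨φ, h1, h2⟩
      exact ⟨φ, by simpa using h1, h2⟩

lemma Slicing.t_bounded (σ : Slicing T) (U : Set ℝ) (hU : IsUpperSet U)
    (h1 : ∀ x : ℝ, ∃ n : ℤ, x + n ∈ U) (h2 : ∀ x : ℝ, ∃ n : ℤ, x + n ∉ U) (X : T) :
    (σ.t U hU).bounded X := by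
  obtain ⟨l, hl⟩ := σ.hn X
  constructor
  · -- bounded below
    obtain ⟨M, hM⟩ : ∃ M : ℝ, ∀ φ ∈ l, φ ≤ M := by
      clear hl
      induction l with
      | nil => exact ⟨0, by simp⟩
      | cons a l ih =>
        obtain ⟨M, hM⟩ := ih
        refine ⟨max a M, ?_⟩
        intro φ hφ
        rcases List.mem_cons.1 hφ with rfl | h
        · exact le_max_left _ _
        · exact (hM φ h).trans (le_max_right _ _)
    obtain ⟨n, hn⟩ := h2 (M - 1)
    refine ⟨n, ⟨?_⟩⟩
    refine Fil.mono ?_ (hl.fil (Set.Iic M) hM)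
    rintro Y ⟨φ, h3, h4⟩
    refine ⟨φ, fun hc => hn (hU ?_ hc), h4⟩
    have : φ ≤ M := h3
    linarith
  · obtain ⟨M, hM⟩ : ∃ M : ℝ, ∀ φ ∈ l, M ≤ φ := by
      clear hl
      induction l with
      | nil => exact ⟨0, by simp⟩
      | cons a l ih =>
        obtain ⟨M, hM⟩ := ih
        refine ⟨min a M, ?_⟩
        intro φ hφ
        rcases List.mem_cons.1 hφ with rfl | h
        · exact min_le_left _ _
        · exact (min_le_right _ _).trans (hM φ h)
    obtain ⟨n, hn⟩ := h1 M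
    refine ⟨n, ⟨?_⟩⟩
    refine Fil.mono ?_ (hl.fil (Set.Ici M) hM)
    rintro Y ⟨φ, h3, h4⟩
    refine ⟨φ, hU ?_ hn, h4⟩
    have : M ≤ φ := h3
    linarith

omit [IsTriangulated T] in
/-- an object with a filtration by phases in the upper set `U` has all HN phases in `U`. -/
lemma HN.lower (σ : Slicing T) {U : Set ℝ} (hU : IsUpperSet U) {l : List ℝ} {X : T}
    (h : HN σ.P l X) (hX : Fil (fun Y => ∃ φ ∈ U, σ.P φ Y) X) :
    ∃ l', HN σ.P l' X ∧ (∀ φ ∈ l', φ ∈ U) ∧ ∀ φ ∈ l', φ ∈ l := by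
  induction h with
  | zero hz => exact ⟨[], .zero hz, by simp, by simp⟩
  | @step X Y F φ l f g k mem h1 h2 h3 ih =>
    by_cases hφ : φ ∈ U
    · refine ⟨φ :: l, .step f g k mem h1 h2 h3, ?_, fun _ h => h⟩
      intro ψ hψ
      rcases List.mem_cons.1 hψ with rfl | h
      · exact hφ
      · exact hU (h3 ψ h).le hφ
    · have hg : g = 0 := by
        refine Fil.hom_zero (Q' := σ.P φ) ?_ hX (Fil.single h2) g
        rintro A B ⟨ψ, h5, h6⟩ h7 f
        refine σ.hom_zero ?_ h6 h7 f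
        by_contra hcon
        push Not at hcon
        exact hφ (hU hcon h5)
      -- the quotient `F` is zero
      have hF : IsZero F := by
        rw [IsZero.iff_id_eq_zero]
        obtain ⟨ψ, hψ⟩ := Triangle.yoneda_exact₃ _ mem (𝟙 F) (by
          change g ≫ 𝟙 F = 0
          rw [hg, zero_comp])
        have hY1 : Fil (fun Z => ∃ ξ ∈ Set.Ioi φ, σ.P ξ Z) (Y⟦(1 : ℤ)⟧) := by
          refine Fil.shift 1 ?_ (h1.fil (Set.Ioi φ) fun ξ hξ => h3 ξ hξ)
          rintro Z ⟨ξ, hξ, hZ⟩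
          have hξ' : φ < ξ := hξ
          refine ⟨ξ + 1, ?_, (σ.shift ξ Z).1 hZ⟩
          change φ < ξ + 1
          linarith
        have hψ0 : ψ = 0 := by
          refine Fil.hom_zero (Q' := σ.P φ) ?_ hY1 (Fil.single h2) ψ
          rintro A B ⟨ξ, h5, h6⟩ h7 f
          exact σ.hom_zero h5 h6 h7 f
        rw [hψ, hψ0]
        exact comp_zero
      have hiso : IsIso f := (Triangle.isZero₃_iff_isIso₁ _ mem).1 hF
      obtain ⟨l', h5, h6, h7⟩ := ih (hX.of_iso (asIso f).symm)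
      exact ⟨l', h5.of_iso (asIso f), h6, fun ψ hψ => List.mem_cons_of_mem _ (h7 ψ hψ)⟩

/-- an object with a filtration by phases in the lower set `V` has all HN phases in `V`. -/
lemma HN.upper (σ : Slicing T) {V : Set ℝ} (hV : IsLowerSet V) {l : List ℝ} {X : T}
    (h : HN σ.P l X) (hX : Fil (fun Y => ∃ φ ∈ V, σ.P φ Y) X) :
    ∃ l', HN σ.P l' X ∧ (∀ φ ∈ l', φ ∈ V) ∧ ∀ φ ∈ l', φ ∈ l := by
  induction h with
  | zero hz => exact ⟨[], .zero hz, by simp, by simp⟩
  | @step X Y F φ l f g k mem h1 h2 h3 ih =>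
    by_cases hφ : φ ∈ V
    · have hY : Fil (fun Y => ∃ φ ∈ V, σ.P φ Y) Y := by
        have hF : Fil (fun Y => ∃ φ ∈ V, σ.P φ Y) (F⟦(-1 : ℤ)⟧) := by
          refine Fil.single ⟨φ + ((-1 : ℤ) : ℝ), hV ?_ hφ, σ.shift_int (-1) h2⟩
          push_cast
          linarith
        exact hX.ext _ _ _ (inv_rot_of_distTriang _ mem) hF
      obtain ⟨l', h5, h6, h7⟩ := ih hY
      refine ⟨φ :: l', .step f g k mem h5 h2 fun ψ hψ => h3 ψ (h7 ψ hψ), ?_, ?_⟩
      · intro ψ hψ
        rcases List.mem_cons.1 hψ with rfl | h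
        · exact hφ
        · exact h6 ψ h
      · intro ψ hψ
        rcases List.mem_cons.1 hψ with rfl | h
        · exact List.mem_cons_self
        · exact List.mem_cons_of_mem _ (h7 ψ h)
    · have hX' : Fil (fun Y => ∃ φ ∈ Vᶜ, σ.P φ Y) X := by
        refine (HN.step f g k mem h1 h2 h3).fil Vᶜ ?_
        intro ψ hψ
        rcases List.mem_cons.1 hψ with rfl | h
        · exact hφ
        · exact fun hc => hφ (hV (h3 ψ h).le hc)
      refine ⟨[], .zero ?_, by simp, by simp⟩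
      rw [IsZero.iff_id_eq_zero]
      refine Fil.hom_zero ?_ hX' hX _
      rintro A B ⟨ξ, h5, h6⟩ ⟨η, h7, h8⟩ f
      refine σ.hom_zero ?_ h6 h8 f
      by_contra hcon
      push Not at hcon
      exact h5 (hV hcon h7)

/-- the HN filtration of an object of the heart. -/
lemma Slicing.heart_hn (σ : Slicing T) (U : Set ℝ) (hU : IsUpperSet U) {X : T}
    (h : (σ.t U hU).heart X) : ∃ l, HN σ.P l X ∧ ∀ φ ∈ l, φ ∈ U ∧ φ - 1 ∉ U := by
  have hle : (σ.t U hU).le 0 X := ((σ.t U hU).le_iff_isLE X 0).2 (((σ.t U hU).mem_heart_iff X).1 h).1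
  have hge : (σ.t U hU).ge 0 X := ((σ.t U hU).ge_iff_isGE X 0).2 (((σ.t U hU).mem_heart_iff X).1 h).2
  obtain ⟨l, hl⟩ := σ.hn X
  obtain ⟨l', h1, h2, h3⟩ := hl.lower σ hU (Fil.mono (by
    rintro Y ⟨φ, h1, h2⟩
    exact ⟨φ, by simpa using h1, h2⟩) hle)
  have hV : IsLowerSet {φ : ℝ | φ - 1 ∉ U} := by
    intro a b hab ha hb
    exact ha (hU (by linarith) hb)
  obtain ⟨l'', h4, h5, h6⟩ := h1.upper σ hV (Fil.mono (by
    rintro Y ⟨φ, h1, h2⟩
    exact ⟨φ, by simpa using h1, h2⟩) hge)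
  exact ⟨l'', h4, fun φ hφ => ⟨h2 φ (h6 φ hφ), h5 φ hφ⟩⟩

lemma Slicing.heart_of_mem (σ : Slicing T) (U : Set ℝ) (hU : IsUpperSet U) {X : T} {φ : ℝ}
    (h : σ.P φ X) (h1 : φ ∈ U) (h2 : φ - 1 ∉ U) : (σ.t U hU).heart X := by
  rw [(σ.t U hU).mem_heart_iff]
  exact ⟨⟨Fil.single ⟨φ, by simpa using h1, h⟩⟩, ⟨Fil.single ⟨φ, by simpa using h2, h⟩⟩⟩

omit [IsTriangulated T] in
/-- additivity along a HN filtration. -/
lemma HN.additive {P : ℝ → ObjectProperty T} {l : List ℝ} {X : T} (h : HN P l X)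
    {V : Type*} [AddCommGroup V] (c : T → V)
    (hc : ∀ T' ∈ distTriang T, c T'.obj₂ = c T'.obj₁ + c T'.obj₃) (N : V → Prop)
    (hN : ∀ x y, N x → N y → N (x + y))
    (hP : ∀ φ ∈ l, ∀ F, P φ F → IsZero F ∨ N (c F)) : IsZero X ∨ N (c X) := by
  have c0 : ∀ Z : T, IsZero Z → c Z = 0 := by
    intro Z hZ
    have h1 := hc _ (contractible_distinguished Z)
    have h2 := hc _ (contractible_distinguished (0 : T))
    change c Z = c Z + c 0 at h1
    change c 0 = c 0 + c 0 at h2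
    have h3 : c (0 : T) = 0 := by simpa using h2
    have h4 := hc (Triangle.mk (0 : (0 : T) ⟶ Z) (0 : Z ⟶ 0) 0) (by
      refine isomorphic_distinguished _ (contractible_distinguished (0 : T)) _ ?_
      refine Triangle.isoMk _ _ (Iso.refl _) (hZ.iso (isZero_zero T)) (Iso.refl _) ?_ ?_ ?_
      · exact (isZero_zero T).eq_of_src _ _
      · exact hZ.eq_of_src _ _
      · exact (isZero_zero T).eq_of_src _ _)
    change c Z = c 0 + c 0 at h4
    rw [h4, h3, add_zero]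
  induction h with
  | zero hz => exact Or.inl hz
  | @step X Y F φ l f g k mem h1 h2 h3 ih =>
    have hcX : c X = c Y + c F := hc _ mem
    rcases ih (fun φ hφ => hP φ (List.mem_cons_of_mem _ hφ)) with hY | hY
    · rcases hP φ List.mem_cons_self F h2 with hF | hF
      · left
        have hiso : IsIso f := (Triangle.isZero₃_iff_isIso₁ _ mem).1 hF
        exact hY.of_iso (asIso f).symm
      · right
        rw [hcX, c0 Y hY, zero_add]
        exact hF
    · right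
      rcases hP φ List.mem_cons_self F h2 with hF | hF
      · rw [hcX, c0 F hF, add_zero]
        exact hY
      · rw [hcX]
        exact hN _ _ hY hF

end Pool.Agent.Helper6.KE
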