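import Pool.Agent.Helper6.KE.KuT

namespace Pool.Agent.Helper6.KE

open CategoryTheory CategoryTheory.Limits CategoryTheory.Pretriangulated Module
open CategoryTheory.Triangulated
open scoped ZeroObject

universe v u w

variable {C : Type u} [Category.{v} C] [Preadditive C] [HasZeroObject C] [HasShift C ℤ]
  [∀ n : ℤ, (shiftFunctor C n).Additive] [Pretriangulated C]
  {K : Type w} [Field K] [Linear K C]

/-- Serre duality vanishing: if `Hom(X, Y) = 0` then `Hom(Y, W X [2]) = 0`. -/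
lemma serre_zero (D : EnriquesType K C) {X Y : C} (h : ∀ f : X ⟶ Y, f = 0)
    (g : Y ⟶ (D.W.obj X)⟦(2 : ℤ)⟧) : g = 0 := by
  by_contra hg
  obtain ⟨f, hf⟩ := D.right g hg
  exact hf (by rw [h f, zero_comp, map_zero])

/-- one degree of Serre vanishing. -/
lemma hv_W (D : EnriquesType K C) {X E : C} (n : ℤ) (h : HV X E (2 - n)) :
    HV E (D.W.obj X) n := by
  have h1 : HV (E⟦2 - n⟧) (D.W.obj X) 2 := fun g => serre_zero D h g
  exact h1.shift_left (2 - n) n (by ring)

lemma hv_zero {X Y : C} (h : ∀ f : X ⟶ Y, f = 0) : HV X Y 0 := by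
  intro f
  have := h (f ≫ (shiftFunctorZero C ℤ).hom.app Y)
  rw [← cancel_mono ((shiftFunctorZero C ℤ).hom.app Y), zero_comp]
  exact this

lemma hv_zero' {X Y : C} (h : HV X Y 0) (f : X ⟶ Y) : f = 0 := by
  have := h (f ≫ (shiftFunctorZero C ℤ).inv.app Y)
  rw [← cancel_mono ((shiftFunctorZero C ℤ).inv.app Y), zero_comp]
  exact this

/-- The data of the 3-spherical object: a triangle `A ⟶ S ⟶ L ⟶ A[1]` with `A = (W L)[1]` and
nonzero connecting map. -/
structure SphTri (D : EnriquesType K C) (L : C) where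
  S : C
  j : (D.W.obj L)⟦(1 : ℤ)⟧ ⟶ S
  p : S ⟶ L
  δ : L ⟶ (D.W.obj L)⟦(1 : ℤ)⟧⟦(1 : ℤ)⟧
  mem : Triangle.mk j p δ ∈ distTriang C
  ne : δ ≠ 0

lemma exists_sphTri (D : EnriquesType K C) {L : C} (h : finrank K (L ⟶ L) = 1) :
    Nonempty (SphTri D L) := by
  have hid : (𝟙 L : L ⟶ L) ≠ 0 := by
    intro h0
    have : ∀ f : L ⟶ L, f = 0 := fun f => by rw [← Category.comp_id f, h0, comp_zero]
    have hs : Subsingleton (L ⟶ L) := ⟨fun a b => by rw [this a, this b]⟩
    rw [finrank_zero_of_subsingleton] at h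
    exact absurd h (by norm_num)
  obtain ⟨g, hg⟩ := D.left (𝟙 L) hid
  have hg0 : g ≠ 0 := by
    rintro rfl
    exact hg (by simp)
  let e := (shiftFunctorAdd' C (1 : ℤ) 1 2 (by norm_num)).app (D.W.obj L)
  obtain ⟨S, j, p, mem⟩ := distinguished_cocone_triangle₂ (g ≫ e.hom)
  refine ⟨⟨S, j, p, g ≫ e.hom, mem, ?_⟩⟩
  intro h0
  apply hg0
  rw [← cancel_mono e.hom, h0, zero_comp]

section

variable (D : EnriquesType K C) {L : C} (T : SphTri D L)

/-- vanishing of all Homs into `W L` and its shift from objects orthogonal to `L`. -/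
lemma hv_A {E : C} (hE : ∀ n, HV L E n) (n : ℤ) : HV E ((D.W.obj L)⟦(1 : ℤ)⟧) n :=
  (hv_W D (n + 1) (hE _)).shift_right 1 n (by ring)

/-- `S` is orthogonal to objects `M` with `Hom(M, L[n]) = 0` and `Hom(L, M[n]) = 0`. -/
lemma hv_S_of_orth {M : C} (h1 : ∀ n, HV L M n) (h2 : ∀ n, HV M L n) (n : ℤ) : HV M T.S n := by
  intro f
  obtain ⟨g, hg⟩ := coyo₂ _ T.mem n f (h2 n _)
  have : g = 0 := hv_A D h1 n g
  rw [hg, this]
  exact zero_comp

lemma finrank_one_span {V : Type*} [AddCommGroup V] [Module K V] (h : finrank K V = 1)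
    {x : V} (hx : x ≠ 0) (y : V) : ∃ c : K, c • x = y := by
  exact exists_smul_eq_of_finrank_eq_one h hx y

/-- `Hom(L, S[n]) = 0` for all `n` when `L` is exceptional. -/
lemma hv_L_S (h1 : finrank K (L ⟶ L) = 1) (hexc : ∀ n : ℤ, n ≠ 0 → HV L L n) (n : ℤ) :
    HV L T.S n := by
  have hA : ∀ m : ℤ, m ≠ 1 → HV L ((D.W.obj L)⟦(1 : ℤ)⟧) m := by
    intro m hm
    refine (hv_W D (m + 1) (hexc _ ?_)).shift_right 1 m (by ring)
    omega
  have hid : (𝟙 L : L ⟶ L) ≠ 0 := by
    intro h0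
    have : ∀ f : L ⟶ L, f = 0 := fun f => by rw [← Category.comp_id f, h0, comp_zero]
    have hs : Subsingleton (L ⟶ L) := ⟨fun a b => by rw [this a, this b]⟩
    rw [finrank_zero_of_subsingleton] at h1
    exact absurd h1 (by norm_num)
  by_cases hn0 : n = 0
  · subst hn0
    apply hv_zero
    intro f
    have h2 : (f ≫ T.p) ≫ T.δ = 0 := by
      have := comp_distTriang_mor_zero₂₃ _ T.mem
      have h3 : T.p ≫ T.δ = 0 := this
      rw [Category.assoc, h3, comp_zero]
    obtain ⟨c, hc⟩ := finrank_one_span h1 hid (f ≫ T.p)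
    rw [← hc, Linear.smul_comp, Category.id_comp, smul_eq_zero] at h2
    have hc0 : c = 0 := h2.resolve_right T.ne
    have h4 : f ≫ T.p = 0 := by rw [← hc, hc0, zero_smul]
    obtain ⟨g, hg⟩ := Triangle.coyoneda_exact₂ _ T.mem f h4
    have h5 : g = 0 := hv_zero' (hA 0 (by norm_num)) g
    rw [hg, h5]
    exact zero_comp
  · intro f
    obtain ⟨g, hg⟩ := coyo₂ _ T.mem n f (hexc n hn0 _)
    by_cases hn1 : n = 1
    · subst hn1
      -- `g` is a multiple of the connecting map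
      have hfr : finrank K (L ⟶ (D.W.obj L)⟦(2 : ℤ)⟧) ≤ 1 := by
        haveI := D.homFinite L L
        haveI := D.homFinite L ((D.W.obj L)⟦(2 : ℤ)⟧)
        let φ : (L ⟶ (D.W.obj L)⟦(2 : ℤ)⟧) →ₗ[K] Module.Dual K (L ⟶ L) :=
          (LinearMap.mk₂ K (fun (g : L ⟶ (D.W.obj L)⟦(2 : ℤ)⟧) (f : L ⟶ L) => D.tr L (f ≫ g))
            (fun g g' f => by simp) (fun c g f => by simp)
            (fun g f f' => by simp) (fun c g f => by simp))
        have hφ : Function.Injective φ := by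
          rw [← LinearMap.ker_eq_bot, LinearMap.ker_eq_bot']
          intro g hg
          by_contra hne
          obtain ⟨f, hf⟩ := D.right g hne
          exact hf (LinearMap.congr_fun hg f)
        have := LinearMap.finrank_le_finrank_of_injective hφ
        rwa [Subspace.dual_finrank_eq, h1] at this
      let e := (shiftFunctorAdd' C (1 : ℤ) 1 2 (by norm_num)).app (D.W.obj L)
      have key : ∃ c : K, c • T.δ = g := by
        haveI := D.homFinite L ((D.W.obj L)⟦(2 : ℤ)⟧)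
        have hx : T.δ ≫ e.inv ≠ 0 := by
          intro h0
          apply T.ne
          rw [← cancel_mono e.inv, h0, zero_comp]
        have hfr1 : finrank K (L ⟶ (D.W.obj L)⟦(2 : ℤ)⟧) = 1 := by
          apply le_antisymm hfr
          rw [Nat.one_le_iff_ne_zero]
          intro h0
          rw [Module.finrank_eq_zero_iff_of_free, ] at h0
          exact hx (Subsingleton.elim _ _)
        obtain ⟨c, hc⟩ := finrank_one_span hfr1 hx
          ((show L ⟶ (D.W.obj L)⟦(1 : ℤ)⟧⟦(1 : ℤ)⟧ from g) ≫ e.inv)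
        refine ⟨c, ?_⟩
        rw [← cancel_mono e.inv, Linear.smul_comp, hc]
      obtain ⟨c, hc⟩ := key
      have h6 : T.δ ≫ T.j⟦(1 : ℤ)⟧' = 0 := comp_distTriang_mor_zero₃₁ _ T.mem
      rw [hg, ← hc]
      change (c • T.δ) ≫ T.j⟦(1 : ℤ)⟧' = 0
      rw [Linear.smul_comp, h6, smul_zero]
    · have h5 : g = 0 := hA n hn1 g
      rw [hg, h5]
      exact zero_comp

end

end Pool.Agent.Helper6.KE
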