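import Pool.Agent.Helper6.KE.HeartHD
import Pool.Agent.Helper6.KE.Slice
import Pool.Agent.Helper6.KE.LinAlg

namespace Pool.Agent.Helper6.KE

open CategoryTheory CategoryTheory.Limits CategoryTheory.Pretriangulated Module
open CategoryTheory.Triangulated
open scoped ZeroObject

universe v u w

variable {C : Type u} [Category.{v} C] [Preadditive C] [HasZeroObject C] [HasShift C ℤ]
  [∀ n : ℤ, (shiftFunctor C n).Additive] [Pretriangulated C]
  {K : Type w} [Field K] [Linear K C]

/-- A (pre-)stability condition on the Kuznetsov component with respect to the numerical class: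
a slicing together with a linear central charge on classes, such that a nonzero semistable object
of phase `φ` has central charge in the open ray spanned by `exp(i π φ)`. -/
structure PreStab (D : EnriquesType K C) (L : Fin 10 → C) extends
    Slicing (Ku L).FullSubcategory where
  Z : (Fin 12 → ℝ) →ₗ[ℝ] ℂ
  central : ∀ (φ : ℝ) (X : (Ku L).FullSubcategory), P φ X → ¬ IsZero X →
    ∃ m : ℝ, 0 < m ∧ Z (D.cls X.obj) = m * Complex.exp ((Real.pi * φ : ℝ) * Complex.I)

/-- the class map is additive on distinguished triangles. -/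
def ClsAdditive (D : EnriquesType K C) : Prop :=
  ∀ T ∈ distTriang C, D.cls T.obj₂ = D.cls T.obj₁ + D.cls T.obj₃

lemma cls_zero (D : EnriquesType K C) (hadd : ClsAdditive D) : D.cls (0 : C) = 0 := by
  have h := hadd _ (contractible_distinguished (0 : C))
  change D.cls 0 = D.cls 0 + D.cls 0 at h
  simpa using h

lemma cls_iso (D : EnriquesType K C) (hadd : ClsAdditive D) {X Y : C} (e : X ≅ Y) :
    D.cls X = D.cls Y := by
  have h := hadd _ (dist_of_iso₂ e (𝟙 X) (0 : X ⟶ 0) 0 (contractible_distinguished X))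
  change D.cls Y = D.cls X + D.cls 0 at h
  rw [h, cls_zero D hadd, add_zero]

lemma cls_shift_one (D : EnriquesType K C) (hadd : ClsAdditive D) (X : C) :
    D.cls (X⟦(1 : ℤ)⟧) = - D.cls X := by
  have h := hadd _ (contractible_distinguished₂ X)
  change D.cls 0 = D.cls X + D.cls (X⟦(1 : ℤ)⟧) at h
  rw [cls_zero D hadd] at h
  exact (neg_eq_of_add_eq_zero_right h.symm).symm

/-- Serre duality for dimensions. -/
lemma finrank_serre [∀ n : ℤ, (shiftFunctor C n).Linear K] (D : EnriquesType K C) (E Y : C)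
    (n m : ℤ) (h : n + m = 2) :
    finrank K (Y ⟶ (D.W.obj E)⟦n⟧) = finrank K (E ⟶ Y⟦m⟧) := by
  have hfin := fun X Y => D.homFinite X Y
  let B : (E ⟶ Y⟦m⟧) →ₗ[K] (Y⟦m⟧ ⟶ (D.W.obj E)⟦(2 : ℤ)⟧) →ₗ[K] K :=
    LinearMap.mk₂ K (fun f g => D.tr E (f ≫ g))
      (fun f f' g => by simp) (fun c f g => by simp)
      (fun f g g' => by simp) (fun c f g => by simp)
  have hB1 : Function.Injective B := by
    rw [← LinearMap.ker_eq_bot, LinearMap.ker_eq_bot']
    intro f hf
    by_contra hne
    obtain ⟨g, hg⟩ := D.left f hne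
    exact hg (LinearMap.congr_fun hf g)
  have hB2 : Function.Injective B.flip := by
    rw [← LinearMap.ker_eq_bot, LinearMap.ker_eq_bot']
    intro g hg
    by_contra hne
    obtain ⟨f, hf⟩ := D.right g hne
    exact hf (LinearMap.congr_fun hg f)
  have h1 := LinearMap.finrank_le_finrank_of_injective hB1
  have h2 := LinearMap.finrank_le_finrank_of_injective hB2
  rw [Subspace.dual_finrank_eq] at h1 h2
  have e1 : (Y ⟶ (D.W.obj E)⟦n⟧) ≃ₗ[K] (Y⟦m⟧ ⟶ (D.W.obj E)⟦n⟧⟦m⟧) :=
    LinearEquiv.ofBijective ((shiftFunctor C m).mapLinearMap K)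
      ⟨(shiftFunctor C m).map_injective, (shiftFunctor C m).map_surjective⟩
  have e2 : (Y⟦m⟧ ⟶ (D.W.obj E)⟦n⟧⟦m⟧) ≃ₗ[K] (Y⟦m⟧ ⟶ (D.W.obj E)⟦(2 : ℤ)⟧) :=
    Linear.homCongr K (Iso.refl _) ((shiftFunctorAdd' C n m 2 h).symm.app _)
  rw [(e1.trans e2).finrank_eq]
  exact le_antisymm h2 h1

lemma chi_serre [∀ n : ℤ, (shiftFunctor C n).Linear K] (D : EnriquesType K C) (E Y : C) :
    chi K Y (D.W.obj E) = chi K E Y := by
  unfold chi
  let σ : ℤ ≃ ℤ := Equiv.subLeft 2
  rw [← finsum_comp_equiv σ (f := fun n : ℤ =>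
    ((n.negOnePow : ℤˣ) : ℤ) * (finrank K (E ⟶ Y⟦n⟧) : ℤ))]
  refine finsum_congr fun n => ?_
  have h1 : ((σ n).negOnePow : ℤˣ) = n.negOnePow := by
    change (2 - n).negOnePow = n.negOnePow
    rw [Int.negOnePow_sub, Int.negOnePow_even 2 (by decide), one_mul]
  rw [h1, finrank_serre D E Y n (σ n) (by change n + (2 - n) = 2; ring)]

lemma cls_mem (D : EnriquesType K C) (L : Fin 10 → C) {E : C} (hE : Ku L E) (i : Fin 10) :
    D.form (D.cls (L i)) (D.cls E) = 0 := by
  rw [D.form_cls, chi_ku L hE i]; simp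

lemma cls_L (D : EnriquesType K C) (L : Fin 10 → C) (hL : IsExcOrth K L) (i j : Fin 10) :
    D.form (D.cls (L i)) (D.cls (L j)) = if i = j then 1 else 0 := by
  rw [D.form_cls, chi_exc L hL]
  split_ifs <;> simp

/-- `W` preserves the class of objects `E` of the Kuznetsov component with `W E` in it. -/
lemma cls_W [∀ n : ℤ, (shiftFunctor C n).Linear K] (D : EnriquesType K C) (L : Fin 10 → C)
    (hL : IsExcOrth K L) {E : C} (hE : Ku L E) (hW : Ku L (D.W.obj E)) :
    D.cls (D.W.obj E) = D.cls E := by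
  have h1 : ∀ Y : C, D.form (D.cls Y) (D.cls (D.W.obj E) - D.cls E) = 0 := by
    intro Y
    rw [map_sub, D.form_cls, D.form_symm (D.cls Y) (D.cls E), D.form_cls, chi_serre, sub_self]
  have h2 : D.form (D.cls (D.W.obj E) - D.cls E) (D.cls (D.W.obj E) - D.cls E) = 0 := by
    rw [map_sub D.form, LinearMap.sub_apply, h1, h1, sub_zero]
  have h3 := neg_of_orth D.form D.form_symm D.plane (fun i => D.cls (L i)) (cls_L D L hL)
    (D.cls (D.W.obj E) - D.cls E) (fun i => by
      rw [map_sub, cls_mem D L hE, cls_mem D L hW, sub_zero]) h2.ge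
  exact sub_eq_zero.1 h3

lemma chi_neg_of_cls (D : EnriquesType K C) (L : Fin 10 → C) (hL : IsExcOrth K L) {E : C}
    (hE : Ku L E) (h0 : D.cls E ≠ 0) : chi K E E < 0 := by
  by_contra hcon
  push Not at hcon
  apply h0
  refine neg_of_orth D.form D.form_symm D.plane (fun i => D.cls (L i)) (cls_L D L hL) _
    (cls_mem D L hE) ?_
  rw [D.form_cls]
  exact_mod_cast hcon

/-- a negative Euler form gives an odd extension group. -/
lemma exists_odd {X Y : C} (h : chi K X Y < 0) : ∃ k : ℤ, Odd k ∧ ¬ HV X Y k := by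
  by_contra hcon
  push Not at hcon
  apply absurd h
  push Not
  unfold chi
  refine finsum_nonneg fun n => ?_
  rcases Int.even_or_odd n with hn | hn
  · rw [Int.negOnePow_even n hn]
    simp
  · have hs : Subsingleton (X ⟶ Y⟦n⟧) := ⟨fun a b => by rw [hcon n hn a, hcon n hn b]⟩
    rw [finrank_zero_of_subsingleton]
    simp

section

variable [∀ n : ℤ, (shiftFunctor C n).Linear K] (D : EnriquesType K C) (hadd : ClsAdditive D)
  (L : Fin 10 → C) (hL : IsExcOrth K L) (σ : PreStab D L)

lemma Slicing.hv_of_lt {T : Type*} [Category T] [Preadditive T] [HasZeroObject T] [HasShift T ℤ]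
    [∀ n : ℤ, (shiftFunctor T n).Additive] [Pretriangulated T] (σ : Slicing T) {X Y : T}
    {a b : ℝ} (n : ℤ) (hX : σ.P a X) (hY : σ.P b Y) (h : b + n < a) : HV X Y n :=
  fun f => σ.hom_zero h hX (σ.shift_int n hY) f

include hadd hL in
/-- phases do not drop. -/
lemma phase_le (E E' : (Ku L).FullSubcategory) (iso : E'.obj ≅ D.W.obj E.obj) {e e' : ℝ}
    (hE : σ.P e E) (hE' : σ.P e' E') (hz : ¬ IsZero E) : e ≤ e' := by
  have hWE : Ku L (D.W.obj E.obj) := (Ku L).prop_of_iso iso E'.property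
  obtain ⟨m, hm, hZ⟩ := σ.central e E hE hz
  have hcls : D.cls E.obj ≠ 0 := by
    intro h0
    rw [h0, map_zero] at hZ
    have : (m : ℂ) ≠ 0 := by exact_mod_cast hm.ne'
    exact mul_ne_zero this (Complex.exp_ne_zero _) hZ.symm
  obtain ⟨k, hk, hk2⟩ := exists_odd (chi_neg_of_cls D L hL E.property hcls)
  have hk1 : 1 ≤ k := by
    by_contra hcon
    push Not at hcon
    have hk0 : k < 0 := by
      rcases hk with ⟨j, rfl⟩
      omega
    apply hk2
    rw [← hv_sub_iff]
    refine Slicing.hv_of_lt σ.toSlicing k hE hE ?_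
    have : (k : ℝ) < 0 := by exact_mod_cast hk0
    linarith
  have h1 : ¬ HV E E' (2 - k) := by
    intro h
    apply hk2
    rw [← hv_W_iff D (2 - k) k (by ring)]
    exact ((hv_sub_iff (Ku L) _ _ _).1 h).of_iso_right iso.symm
  have h2 : e ≤ e' + (2 - k : ℤ) := by
    by_contra hcon
    push Not at hcon
    exact h1 (Slicing.hv_of_lt σ.toSlicing (2 - k) hE hE' hcon)
  have hz' : ¬ IsZero E' := by
    intro h0
    apply h1
    intro f
    exact (Functor.map_isZero _ h0).eq_of_tgt _ _
  obtain ⟨m', hm', hZ'⟩ := σ.central e' E' hE' hz'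
  have hc : D.cls E'.obj = D.cls E.obj := by
    rw [cls_iso D hadd iso, cls_W D L hL E.property hWE]
  rw [hc, hZ] at hZ'
  -- compare the two rays
  have him := congrArg (rotIm e') hZ'
  have hre := congrArg (rotRe e') hZ'
  change rotIm e' ((m : ℂ) * ray e) = rotIm e' ((m' : ℂ) * ray e') at him
  change rotRe e' ((m : ℂ) * ray e) = rotRe e' ((m' : ℂ) * ray e') at hre
  rw [rotIm_ray, rotIm_ray, sub_self, mul_zero, Real.sin_zero, mul_zero] at him
  rw [rotRe_ray, rotRe_ray, sub_self, mul_zero, Real.cos_zero, mul_one] at hre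
  have hsin : Real.sin (Real.pi * (e - e')) = 0 := (mul_eq_zero.1 him).resolve_left hm.ne'
  obtain ⟨j, hj⟩ := Real.sin_eq_zero_iff.1 hsin
  have hj' : e - e' = j := by
    have := Real.pi_ne_zero
    have h3 : Real.pi * (e - e') = Real.pi * j := by rw [← hj]; ring
    exact mul_left_cancel₀ this h3
  have hcos : 0 < Real.cos (Real.pi * (e - e')) := by
    by_contra hcon
    push Not at hcon
    have := mul_nonpos_of_nonneg_of_nonpos hm.le hcon
    linarith
  have hjeven : Even j := by
    by_contra hodd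
    rw [Int.not_even_iff_odd] at hodd
    rw [← hj, Real.cos_int_mul_pi, Odd.neg_one_zpow hodd] at hcos
    linarith
  have hj1 : j ≤ 1 := by
    have h4 : (j : ℝ) ≤ ((2 - k : ℤ) : ℝ) := by linarith
    have h5 : j ≤ 2 - k := by exact_mod_cast h4
    omega
  have hj0 : j ≤ 0 := by
    rcases hjeven with ⟨i, rfl⟩
    omega
  have : (j : ℝ) ≤ 0 := by exact_mod_cast hj0
  linarith

end

end Pool.Agent.Helper6.KE
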